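import Mathlib

/-!
# The cherry lemma
-/

set_option autoImplicit false

open Finset
open scoped Classical

namespace Pool.Agent.Helper68.Piv

/-- a minimal subfamily: if all classes of an equivalence relation have weight at most
`th`, some saturated subset has weight in `[t, t + th]` -/
theorem exists_saturated {V : Type*} (R : V → V → Prop) (hR : Equivalence R) (w : V → ℝ)
    (hw : ∀ v, 0 ≤ w v) (Z : Finset V)
    (t th : ℝ) (hth : ∀ x ∈ Z, ∑ y ∈ Z.filter (fun y => R x y), w y ≤ th)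
    (ht : 0 < t) (hZ : t ≤ ∑ x ∈ Z, w x) :
    ∃ P ⊆ Z, (∀ x ∈ P, ∀ y ∈ Z, R x y → y ∈ P) ∧ t ≤ ∑ x ∈ P, w x ∧
      ∑ x ∈ P, w x ≤ t + th := by
  -- minimal saturated subset of weight at least `t`
  obtain ⟨good, hgood⟩ : ∃ good : Finset V → Prop, ∀ P, good P ↔
      ((∀ x ∈ P, ∀ y ∈ Z, R x y → y ∈ P) ∧ t ≤ ∑ x ∈ P, w x) := ⟨_, fun _ => Iff.rfl⟩
  have hne : (Z.powerset.filter fun P => good P).Nonempty := ⟨Z, by
    refine mem_filter.2 ⟨mem_powerset_self _, (hgood _).2 ⟨fun x _ y hy _ => hy, hZ⟩⟩⟩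
  obtain ⟨P, hP, hmin⟩ := exists_min_image (Z.powerset.filter fun P => good P)
    (fun P => P.card) hne
  obtain ⟨hPZ, hP'⟩ := mem_filter.1 hP
  obtain ⟨hsat, hPt⟩ := (hgood _).1 hP'
  rw [mem_powerset] at hPZ
  refine ⟨P, hPZ, hsat, hPt, ?_⟩
  have hPne : P.Nonempty := by
    rw [nonempty_iff_ne_empty]
    rintro rfl
    rw [sum_empty] at hPt
    linarith
  obtain ⟨x, hx⟩ := hPne
  let C := P.filter fun y => R x y
  have hC : P \ C ∉ Z.powerset.filter (fun P => good P) := by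
    intro hm
    have h1 := hmin _ hm
    have h2 : (P \ C).card < P.card := by
      refine card_lt_card ?_
      refine ⟨sdiff_subset, fun h => ?_⟩
      exact (mem_sdiff.1 (h hx)).2 (mem_filter.2 ⟨hx, hR.refl x⟩)
    omega
  have hC2 : ∑ y ∈ P \ C, w y < t := by
    by_contra hcon
    apply hC
    refine mem_filter.2 ⟨mem_powerset.2 (sdiff_subset.trans hPZ), (hgood _).2
      ⟨?_, not_lt.1 hcon⟩⟩
    intro a ha b hb hab
    rw [mem_sdiff] at ha ⊢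
    refine ⟨hsat a ha.1 b hb hab, fun hbC => ha.2 ?_⟩
    exact mem_filter.2 ⟨ha.1, hR.trans (mem_filter.1 hbC).2 (hR.symm hab)⟩
  have hC3 : ∑ y ∈ C, w y ≤ th := by
    refine le_trans (sum_le_sum_of_subset_of_nonneg ?_ fun a _ _ => hw a) (hth x (hPZ hx))
    intro y hy
    rw [mem_filter] at hy ⊢
    exact ⟨hPZ hy.1, hy.2⟩
  have h3 : ∑ y ∈ P \ C, w y + ∑ y ∈ C, w y = ∑ y ∈ P, w y := sum_sdiff (filter_subset _ _)
  linarith

/-- **Cherry lemma.** Three weighted sets, the first coherent to the other two, contain a vertex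
with nonadjacent neighbours in the two other sets. -/
theorem cherry {V : Type*} (Adj : V → V → Prop) (hs : ∀ a b, Adj a b → Adj b a) (w : V → ℝ)
    (hw : ∀ v, 0 ≤ w v) (Z1 Z2 Z3 : Finset V) (lam th : ℝ) (hl : 0 < lam)
    (h12 : ∀ P ⊆ Z1, ∀ Q ⊆ Z2, lam ≤ ∑ x ∈ P, w x → lam ≤ ∑ x ∈ Q, w x →
      ∃ p ∈ P, ∃ q ∈ Q, Adj p q)
    (h13 : ∀ P ⊆ Z1, ∀ Q ⊆ Z3, lam ≤ ∑ x ∈ P, w x → lam ≤ ∑ x ∈ Q, w x →
      ∃ p ∈ P, ∃ q ∈ Q, Adj p q)
    (hth : ∀ y ∈ Z2, ∑ x ∈ Z1.filter (fun x => Adj x y), w x ≤ th)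
    (hZ1 : 4 * lam + th ≤ ∑ x ∈ Z1, w x) (hZ2 : 2 * lam ≤ ∑ x ∈ Z2, w x)
    (hZ3 : lam ≤ ∑ x ∈ Z3, w x) :
    ∃ x ∈ Z1, ∃ y ∈ Z2, ∃ z ∈ Z3, (Adj x y ∧ Adj x z ∧ ¬ Adj y z) ∨
      (Adj y x ∧ Adj y z ∧ ¬ Adj x z) ∨ (Adj z x ∧ Adj z y ∧ ¬ Adj x y) := by
  by_contra hcon
  push Not at hcon
  have hX : ∀ x ∈ Z1, ∀ y ∈ Z2, ∀ z ∈ Z3, Adj x y → Adj x z → Adj y z := fun x hx y hy z hz h1 h2 =>
    (hcon x hx y hy z hz).1 h1 h2
  have hY : ∀ x ∈ Z1, ∀ y ∈ Z2, ∀ z ∈ Z3, Adj x y → Adj y z → Adj x z := fun x hx y hy z hz h1 h2 =>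
    (hcon x hx y hy z hz).2.1 (hs _ _ h1) h2
  have hZ : ∀ x ∈ Z1, ∀ y ∈ Z2, ∀ z ∈ Z3, Adj x z → Adj y z → Adj x y := fun x hx y hy z hz h1 h2 =>
    (hcon x hx y hy z hz).2.2 (hs _ _ h1) (hs _ _ h2)
  -- vertices of `Z1` with neighbours on both sides
  let Y := Z1.filter fun x => (∃ y ∈ Z2, Adj x y) ∧ ∃ z ∈ Z3, Adj x z
  have hbad2 : ∑ x ∈ Z1.filter (fun x => ¬ ∃ y ∈ Z2, Adj x y), w x < lam := by
    by_contra h
    obtain ⟨p, hp, q, hq, hpq⟩ := h12 _ (filter_subset _ _) Z2 subset_rfl (not_lt.1 h)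
      (by linarith)
    exact (mem_filter.1 hp).2 ⟨q, hq, hpq⟩
  have hbad3 : ∑ x ∈ Z1.filter (fun x => ¬ ∃ z ∈ Z3, Adj x z), w x < lam := by
    by_contra h
    obtain ⟨p, hp, q, hq, hpq⟩ := h13 _ (filter_subset _ _) Z3 subset_rfl (not_lt.1 h) hZ3
    exact (mem_filter.1 hp).2 ⟨q, hq, hpq⟩
  have hYw : 2 * lam + th ≤ ∑ x ∈ Y, w x := by
    have h1 : ∑ x ∈ Z1, w x ≤ ∑ x ∈ Y, w x +
        (∑ x ∈ Z1.filter (fun x => ¬ ∃ y ∈ Z2, Adj x y), w x +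
          ∑ x ∈ Z1.filter (fun x => ¬ ∃ z ∈ Z3, Adj x z), w x) := by
      have h2 : Z1 ⊆ Y ∪ (Z1.filter (fun x => ¬ ∃ y ∈ Z2, Adj x y) ∪
          Z1.filter (fun x => ¬ ∃ z ∈ Z3, Adj x z)) := by
        intro x hx
        rw [mem_union, mem_union]
        by_cases h3 : ∃ y ∈ Z2, Adj x y
        · by_cases h4 : ∃ z ∈ Z3, Adj x z
          · exact Or.inl (mem_filter.2 ⟨hx, h3, h4⟩)
          · exact Or.inr (Or.inr (mem_filter.2 ⟨hx, h4⟩))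
        · exact Or.inr (Or.inl (mem_filter.2 ⟨hx, h3⟩))
      refine (sum_le_sum_of_subset_of_nonneg h2 fun a _ _ => hw a).trans ?_
      have h3 := sum_union_inter (s₁ := Y) (s₂ := Z1.filter (fun x => ¬ ∃ y ∈ Z2, Adj x y) ∪
          Z1.filter (fun x => ¬ ∃ z ∈ Z3, Adj x z)) (f := w)
      have h4 := sum_union_inter (s₁ := Z1.filter (fun x => ¬ ∃ y ∈ Z2, Adj x y))
        (s₂ := Z1.filter (fun x => ¬ ∃ z ∈ Z3, Adj x z)) (f := w)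
      have h5 : ∀ S : Finset V, 0 ≤ ∑ x ∈ S, w x := fun S => sum_nonneg fun a _ => hw a
      have h6 := h5 (Y ∩ (Z1.filter (fun x => ¬ ∃ y ∈ Z2, Adj x y) ∪
          Z1.filter (fun x => ¬ ∃ z ∈ Z3, Adj x z)))
      have h7 := h5 (Z1.filter (fun x => ¬ ∃ y ∈ Z2, Adj x y) ∩
        Z1.filter (fun x => ¬ ∃ z ∈ Z3, Adj x z))
      linarith
    linarith
  -- neighbourhoods in `Z2` are equal or disjoint
  let g : V → Finset V := fun x => Z2.filter fun y => Adj x y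
  have sub_map_exists : ∀ x ∈ Y, ∀ x' ∈ Y, ∀ y0 ∈ Z2, Adj x y0 → Adj x' y0 → g x' ⊆ g x := by
    intro x hx x' hx' y0 hy0 h1 h2 y hy
    obtain ⟨hxZ, -, z, hz, hxz⟩ := mem_filter.1 hx
    obtain ⟨hxZ', -⟩ := mem_filter.1 hx'
    obtain ⟨hy2, hyx⟩ := mem_filter.1 hy
    have e1 : Adj y0 z := hX x hxZ y0 hy0 z hz h1 hxz
    have e2 : Adj x' z := hY x' hxZ' y0 hy0 z hz h2 e1
    have e3 : Adj y z := hX x' hxZ' y hy2 z hz hyx e2
    exact mem_filter.2 ⟨hy2, hZ x hxZ y hy2 z hz hxz e3⟩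
  have hg : ∀ x ∈ Y, ∀ x' ∈ Y, ∀ y0 ∈ Z2, Adj x y0 → Adj x' y0 → g x' = g x :=
    fun x hx x' hx' y0 hy0 h1 h2 => Subset.antisymm (sub_map_exists x hx x' hx' y0 hy0 h1 h2)
      (sub_map_exists x' hx' x hx y0 hy0 h2 h1)
  obtain ⟨R, hR⟩ : ∃ R : V → V → Prop, ∀ x y, R x y ↔ g y = g x := ⟨_, fun _ _ => Iff.rfl⟩
  obtain ⟨P, hPY, hsat, hP1, hP2⟩ := exists_saturated R
    ⟨fun _ => (hR _ _).2 rfl, fun h => (hR _ _).2 ((hR _ _).1 h).symm,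
      fun h h' => (hR _ _).2 (((hR _ _).1 h').trans ((hR _ _).1 h))⟩ w hw Y lam th (by
    intro x hx
    obtain ⟨hxZ, ⟨y, hy, hxy⟩, -⟩ := mem_filter.1 hx
    refine le_trans (sum_le_sum_of_subset_of_nonneg ?_ fun a _ _ => hw a) (hth y hy)
    intro x' hx'
    obtain ⟨hx'Y, hgx⟩ := mem_filter.1 hx'
    rw [hR] at hgx
    refine mem_filter.2 ⟨(mem_filter.1 hx'Y).1, ?_⟩
    have h1 : y ∈ g x := mem_filter.2 ⟨hy, hxy⟩
    rw [← hgx] at h1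
    exact (mem_filter.1 h1).2) hl (by
      have h8 : 0 ≤ th := by
        by_contra hneg
        have hne : Z2.Nonempty := by
          rw [nonempty_iff_ne_empty]
          rintro rfl
          rw [sum_empty] at hZ2
          linarith
        obtain ⟨y, hy⟩ := hne
        have h9 := hth y hy
        have h10 : 0 ≤ ∑ x ∈ Z1.filter (fun x => Adj x y), w x := sum_nonneg fun a _ => hw a
        linarith
      linarith)
  have hP3 : lam ≤ ∑ x ∈ Y \ P, w x := by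
    have := sum_sdiff (s₁ := P) (s₂ := Y) (f := w) hPY
    linarith
  have hYZ : Y ⊆ Z1 := filter_subset _ _
  -- one of the two sides is missed by many vertices of `Z2`
  let Q1 := Z2.filter fun y => ¬ ∃ x ∈ P, Adj x y
  let Q2 := Z2.filter fun y => ¬ ∃ x ∈ Y \ P, Adj x y
  have hQ : ∑ y ∈ Z2, w y ≤ ∑ y ∈ Q1, w y + ∑ y ∈ Q2, w y := by
    have h2 : Z2 ⊆ Q1 ∪ Q2 := by
      intro y hy
      rw [mem_union]
      by_contra hno
      rw [not_or] at hno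
      have h3 : ∃ x ∈ P, Adj x y := by
        by_contra h
        exact hno.1 (mem_filter.2 ⟨hy, h⟩)
      have h4 : ∃ x ∈ Y \ P, Adj x y := by
        by_contra h
        exact hno.2 (mem_filter.2 ⟨hy, h⟩)
      obtain ⟨x, hx, hxy⟩ := h3
      obtain ⟨x', hx', hxy'⟩ := h4
      rw [mem_sdiff] at hx'
      exact hx'.2 (hsat x hx x' hx'.1 ((hR _ _).2 (hg x (hPY hx) x' hx'.1 y hy hxy hxy')))
    refine (sum_le_sum_of_subset_of_nonneg h2 fun a _ _ => hw a).trans ?_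
    have h3 := sum_union_inter (s₁ := Q1) (s₂ := Q2) (f := w)
    have h5 : 0 ≤ ∑ x ∈ Q1 ∩ Q2, w x := sum_nonneg fun a _ => hw a
    linarith
  rcases le_or_gt lam (∑ y ∈ Q1, w y) with hq | hq
  · obtain ⟨p, hp, q, hq', hpq⟩ := h12 P (hPY.trans hYZ) Q1 (filter_subset _ _) hP1 hq
    exact (mem_filter.1 hq').2 ⟨p, hp, hpq⟩
  · obtain ⟨p, hp, q, hq', hpq⟩ := h12 (Y \ P) (sdiff_subset.trans hYZ) Q2 (filter_subset _ _) hP3
      (by linarith)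
    exact (mem_filter.1 hq').2 ⟨p, hp, hpq⟩

theorem sub_map_exists {δ ε : Type*} (i : δ ↪ ε) (D : Finset δ) (P : Finset ε)
    (hP : P ⊆ D.map i) : ∃ D' ⊆ D, D'.map i = P := by
  refine ⟨D.filter fun x => i x ∈ P, filter_subset _ _, ?_⟩
  ext x
  simp only [mem_map, mem_filter]
  constructor
  · rintro ⟨y, ⟨-, hy⟩, rfl⟩
    exact hy
  · intro hx
    obtain ⟨y, hy, rfl⟩ := mem_map.1 (hP hx)
    exact ⟨y, ⟨hy, hx⟩, rfl⟩

/-- **Cherry lemma**, unweighted form with three relations. -/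
theorem cherryR {α β γ : Type*} (R : α → β → Prop) (S : β → γ → Prop) (T : α → γ → Prop)
    (A : Finset α) (B : Finset β) (C : Finset γ) (k d : ℝ) (hk : 0 < k)
    (hR : ∀ A' ⊆ A, ∀ B' ⊆ B, k ≤ A'.card → k ≤ B'.card → ∃ a ∈ A', ∃ b ∈ B', R a b)
    (hT : ∀ A' ⊆ A, ∀ C' ⊆ C, k ≤ A'.card → k ≤ C'.card → ∃ a ∈ A', ∃ c ∈ C', T a c)
    (hd : ∀ b ∈ B, ((A.filter fun a => R a b).card : ℝ) ≤ d)
    (hA : 4 * k + d ≤ A.card) (hB : 2 * k ≤ B.card) (hC : k ≤ C.card) :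
    ∃ a ∈ A, ∃ b ∈ B, ∃ c ∈ C, (R a b ∧ T a c ∧ ¬ S b c) ∨ (R a b ∧ S b c ∧ ¬ T a c) ∨
      (T a c ∧ S b c ∧ ¬ R a b) := by
  -- the disjoint union
  obtain ⟨Adj, hAdj⟩ : ∃ Adj : (α ⊕ β ⊕ γ) → (α ⊕ β ⊕ γ) → Prop, ∀ x y, Adj x y ↔
      (∃ a b, R a b ∧ ((x = Sum.inl a ∧ y = Sum.inr (Sum.inl b)) ∨
        (y = Sum.inl a ∧ x = Sum.inr (Sum.inl b)))) ∨
      (∃ b c, S b c ∧ ((x = Sum.inr (Sum.inl b) ∧ y = Sum.inr (Sum.inr c)) ∨
        (y = Sum.inr (Sum.inl b) ∧ x = Sum.inr (Sum.inr c)))) ∨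
      (∃ a c, T a c ∧ ((x = Sum.inl a ∧ y = Sum.inr (Sum.inr c)) ∨
        (y = Sum.inl a ∧ x = Sum.inr (Sum.inr c)))) := ⟨_, fun _ _ => Iff.rfl⟩
  have hsymm : ∀ x y, Adj x y → Adj y x := by
    intro x y h
    rw [hAdj] at h ⊢
    rcases h with ⟨a, b, h1, h2 | h2⟩ | ⟨a, b, h1, h2 | h2⟩ | ⟨a, b, h1, h2 | h2⟩
    · exact Or.inl ⟨a, b, h1, Or.inr h2⟩
    · exact Or.inl ⟨a, b, h1, Or.inl h2⟩
    · exact Or.inr (Or.inl ⟨a, b, h1, Or.inr h2⟩)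
    · exact Or.inr (Or.inl ⟨a, b, h1, Or.inl h2⟩)
    · exact Or.inr (Or.inr ⟨a, b, h1, Or.inr h2⟩)
    · exact Or.inr (Or.inr ⟨a, b, h1, Or.inl h2⟩)
  have hAR : ∀ a b, Adj (Sum.inl a) (Sum.inr (Sum.inl b)) ↔ R a b := by
    intro a b
    rw [hAdj]
    simp
  have hAS : ∀ b c, Adj (Sum.inr (Sum.inl b)) (Sum.inr (Sum.inr c)) ↔ S b c := by
    intro b c
    rw [hAdj]
    simp
  have hAT : ∀ a c, Adj (Sum.inl a) (Sum.inr (Sum.inr c)) ↔ T a c := by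
    intro a c
    rw [hAdj]
    simp
  let iA : α ↪ (α ⊕ β ⊕ γ) := ⟨Sum.inl, Sum.inl_injective⟩
  let iB : β ↪ (α ⊕ β ⊕ γ) := ⟨fun b => Sum.inr (Sum.inl b), fun x y h => by
    exact Sum.inl_injective (Sum.inr_injective h)⟩
  let iC : γ ↪ (α ⊕ β ⊕ γ) := ⟨fun b => Sum.inr (Sum.inr b), fun x y h => by
    exact Sum.inr_injective (Sum.inr_injective h)⟩
  have hone : ∀ P : Finset (α ⊕ β ⊕ γ), ∑ _x ∈ P, (1 : ℝ) = P.card := by
    intro P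
    simp
  obtain ⟨x, hx, y, hy, z, hz, h⟩ := cherry Adj hsymm (fun _ => (1 : ℝ)) (fun _ => zero_le_one)
    (A.map iA) (B.map iB) (C.map iC) k d hk (by
      intro P hP Q hQ hPk hQk
      rw [hone] at hPk hQk
      obtain ⟨P', hP', rfl⟩ := sub_map_exists iA A P hP
      obtain ⟨Q', hQ', rfl⟩ := sub_map_exists iB B Q hQ
      rw [card_map] at hPk hQk
      obtain ⟨a, ha, b, hb, hab⟩ := hR P' hP' Q' hQ' hPk hQk
      exact ⟨iA a, mem_map_of_mem _ ha, iB b, mem_map_of_mem _ hb, (hAR a b).2 hab⟩) (by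
      intro P hP Q hQ hPk hQk
      rw [hone] at hPk hQk
      obtain ⟨P', hP', rfl⟩ := sub_map_exists iA A P hP
      obtain ⟨Q', hQ', rfl⟩ := sub_map_exists iC C Q hQ
      rw [card_map] at hPk hQk
      obtain ⟨a, ha, b, hb, hab⟩ := hT P' hP' Q' hQ' hPk hQk
      exact ⟨iA a, mem_map_of_mem _ ha, iC b, mem_map_of_mem _ hb, (hAT a b).2 hab⟩) (by
      intro y hy
      obtain ⟨b, hb, rfl⟩ := mem_map.1 hy
      rw [hone]
      have h1 : (A.map iA).filter (fun x => Adj x (iB b)) = (A.filter fun a => R a b).map iA := by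
        ext x
        simp only [mem_filter, mem_map]
        constructor
        · rintro ⟨⟨a, ha, rfl⟩, h⟩
          exact ⟨a, ⟨ha, (hAR a b).1 h⟩, rfl⟩
        · rintro ⟨a, ⟨ha, h⟩, rfl⟩
          exact ⟨⟨a, ha, rfl⟩, (hAR a b).2 h⟩
      rw [h1, card_map]
      exact hd b hb) (by
      rw [hone, card_map]
      exact hA) (by
      rw [hone, card_map]
      exact hB) (by
      rw [hone, card_map]
      exact hC)
  obtain ⟨a, ha, rfl⟩ := mem_map.1 hx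
  obtain ⟨b, hb, rfl⟩ := mem_map.1 hy
  obtain ⟨c, hc, rfl⟩ := mem_map.1 hz
  refine ⟨a, ha, b, hb, c, hc, ?_⟩
  have e1 : Adj (iA a) (iB b) ↔ R a b := hAR a b
  have e2 : Adj (iB b) (iC c) ↔ S b c := hAS b c
  have e3 : Adj (iA a) (iC c) ↔ T a c := hAT a c
  have e1' : Adj (iB b) (iA a) ↔ R a b := ⟨fun h => e1.1 (hsymm _ _ h), fun h => hsymm _ _ (e1.2 h)⟩
  have e2' : Adj (iC c) (iB b) ↔ S b c := ⟨fun h => e2.1 (hsymm _ _ h), fun h => hsymm _ _ (e2.2 h)⟩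
  have e3' : Adj (iC c) (iA a) ↔ T a c := ⟨fun h => e3.1 (hsymm _ _ h), fun h => hsymm _ _ (e3.2 h)⟩
  rw [e1, e2, e3, e1', e2', e3'] at h
  exact h

/-- **Cherry lemma**, unweighted form with three relations, natural numbers. -/
theorem cherry3 {α β γ : Type*} (R : α → β → Prop) (S : β → γ → Prop) (T : α → γ → Prop)
    (A : Finset α) (B : Finset β) (C : Finset γ) (k d : ℕ)
    (hR : ∀ A' ⊆ A, ∀ B' ⊆ B, k ≤ A'.card → k ≤ B'.card → ∃ a ∈ A', ∃ b ∈ B', R a b)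
    (hS : ∀ B' ⊆ B, ∀ C' ⊆ C, k ≤ B'.card → k ≤ C'.card → ∃ b ∈ B', ∃ c ∈ C', S b c)
    (hT : ∀ A' ⊆ A, ∀ C' ⊆ C, k ≤ A'.card → k ≤ C'.card → ∃ a ∈ A', ∃ c ∈ C', T a c)
    (hd : ∀ b ∈ B, (A.filter fun a => R a b).card ≤ d)
    (hA : 4 * k + d ≤ A.card) (hB : 3 * k ≤ B.card) (hC : 3 * k ≤ C.card) :
    ∃ a ∈ A, ∃ b ∈ B, ∃ c ∈ C, (R a b ∧ T a c ∧ ¬ S b c) ∨ (R a b ∧ S b c ∧ ¬ T a c) ∨
      (T a c ∧ S b c ∧ ¬ R a b) := by
  rcases Nat.eq_zero_or_pos k with rfl | hk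
  · obtain ⟨a, ha, -⟩ := hR ∅ (empty_subset _) ∅ (empty_subset _) le_rfl le_rfl
    exact absurd ha (notMem_empty a)
  have hB' : 2 * k ≤ B.card := by omega
  have hC' : k ≤ C.card := by omega
  exact cherryR R S T A B C k d (by exact_mod_cast hk)
    (fun A' hA' B' hB' h1 h2 => hR A' hA' B' hB' (by exact_mod_cast h1) (by exact_mod_cast h2))
    (fun A' hA' B' hB' h1 h2 => hT A' hA' B' hB' (by exact_mod_cast h1) (by exact_mod_cast h2))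
    (fun b hb => by exact_mod_cast hd b hb) (by exact_mod_cast hA) (by exact_mod_cast hB')
    (by exact_mod_cast hC')

end Pool.Agent.Helper68.Piv
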