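import Mathlib

/-!
# Hubs: connected sets with prescribed neighbourhood size in a sparse coherent pair
-/

set_option autoImplicit false

open Finset
open scoped Classical

namespace Pool.Agent.Helper68.Piv

variable {V : Type*}

/-- connectivity of a finite set by cuts -/
def CutConn (F : SimpleGraph V) (I : Finset V) : Prop :=
  I.Nonempty ∧ ∀ U ⊆ I, U.Nonempty → (∀ u ∈ U, ∀ v ∈ I, v ∉ U → ¬ F.Adj u v) → U = I

/-- a cut-connected set induces a connected graph -/
theorem CutConn.connected {F : SimpleGraph V} {I : Finset V} (h : CutConn F I) :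
    (F.induce (I : Set V)).Connected := by
  obtain ⟨⟨a, ha⟩, hI⟩ := h
  have hreach : ∀ b : (I : Set V), (F.induce (I : Set V)).Reachable ⟨a, ha⟩ b := by
    intro b
    let U : Finset V := I.filter fun v => ∃ hv : v ∈ (I : Set V),
      (F.induce (I : Set V)).Reachable ⟨a, ha⟩ ⟨v, hv⟩
    have hU : U = I := by
      refine hI U (filter_subset _ _) ⟨a, mem_filter.2 ⟨ha, ha, SimpleGraph.Reachable.refl _⟩⟩ ?_
      intro u hu v hv hvU huv
      obtain ⟨huI, hu', hur⟩ := mem_filter.1 hu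
      refine hvU (mem_filter.2 ⟨hv, hv, hur.trans ?_⟩)
      exact SimpleGraph.Adj.reachable (by
        rw [SimpleGraph.comap_adj]
        exact huv)
    have hb : (b : V) ∈ U := by
      rw [hU]
      exact b.2
    obtain ⟨-, hr1, hr2⟩ := mem_filter.1 hb
    exact hr2
  have : Nonempty (I : Set V) := ⟨⟨a, ha⟩⟩
  exact SimpleGraph.Connected.mk fun x y => (hreach x).symm.trans (hreach y)

/-- neighbours in a ground set -/
noncomputable def nb (F : SimpleGraph V) (W S : Finset V) : Finset V :=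
  W.filter fun v => ∃ s ∈ S, F.Adj s v

theorem mem_nb {F : SimpleGraph V} {W S : Finset V} {v : V} :
    v ∈ nb F W S ↔ v ∈ W ∧ ∃ s ∈ S, F.Adj s v := mem_filter

theorem nb_mono {F : SimpleGraph V} {W S S' : Finset V} (h : S ⊆ S') : nb F W S ⊆ nb F W S' := by
  intro v hv
  obtain ⟨h1, s, hs, h2⟩ := mem_nb.1 hv
  exact mem_nb.2 ⟨h1, s, h hs, h2⟩

theorem nb_insert {F : SimpleGraph V} {W S : Finset V} {a : V} :
    nb F W (insert a S) = W.filter (fun v => F.Adj a v) ∪ nb F W S := by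
  ext v
  simp only [mem_nb, mem_insert, mem_union, mem_filter, exists_eq_or_imp]
  tauto

theorem card_nb_insert_le {F : SimpleGraph V} {W S : Finset V} {a : V} {D : ℕ}
    (h : (W.filter fun v => F.Adj a v).card ≤ D) :
    (nb F W (insert a S)).card ≤ (nb F W S).card + D := by
  rw [nb_insert]
  refine (card_union_le _ _).trans ?_
  omega

/-- size of the neighbourhood in two sets -/
noncomputable def sz (F : SimpleGraph V) (A B S : Finset V) : ℕ :=
  max (nb F A S).card (nb F B S).card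

theorem sz_insert_le {F : SimpleGraph V} {A B S : Finset V} {a : V} {D : ℕ}
    (hA : (A.filter fun v => F.Adj a v).card ≤ D) (hB : (B.filter fun v => F.Adj a v).card ≤ D) :
    sz F A B (insert a S) ≤ sz F A B S + D := by
  have h1 := card_nb_insert_le (S := S) hA
  have h2 := card_nb_insert_le (S := S) hB
  unfold sz
  omega

theorem sz_mono {F : SimpleGraph V} {A B S S' : Finset V} (h : S ⊆ S') :
    sz F A B S ≤ sz F A B S' :=
  max_le_max (card_le_card (nb_mono h)) (card_le_card (nb_mono h))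

/-- a subset of `P` with prescribed neighbourhood size -/
theorem exists_leafset (F : SimpleGraph V) (A B : Finset V) (D t : ℕ) (P : Finset V)
    (hD : ∀ v ∈ P, (A.filter fun x => F.Adj v x).card ≤ D ∧ (B.filter fun x => F.Adj v x).card ≤ D)
    (ht1 : 1 ≤ t) (ht : t ≤ sz F A B P) :
    ∃ S ⊆ P, t ≤ sz F A B S ∧ sz F A B S + 1 ≤ t + D := by
  have hne : (P.powerset.filter fun S => t ≤ sz F A B S).Nonempty :=
    ⟨P, mem_filter.2 ⟨mem_powerset_self _, ht⟩⟩
  obtain ⟨S, hS, hmin⟩ := exists_min_image (P.powerset.filter fun S => t ≤ sz F A B S)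
    (fun S => S.card) hne
  obtain ⟨hSP, hSt⟩ := mem_filter.1 hS
  rw [mem_powerset] at hSP
  refine ⟨S, hSP, hSt, ?_⟩
  rcases S.eq_empty_or_nonempty with rfl | ⟨a, ha⟩
  · have h0 : sz F A B (∅ : Finset V) = 0 := by
      simp [sz, nb]
    omega
  · have h1 : sz F A B (S.erase a) < t := by
      by_contra hcon
      have h2 := hmin (S.erase a) (mem_filter.2
        ⟨mem_powerset.2 ((erase_subset _ _).trans hSP), not_lt.1 hcon⟩)
      have h3 := card_erase_lt_of_mem ha
      omega
    have h4 := sz_insert_le (S := S.erase a) (hD a (hSP ha)).1 (hD a (hSP ha)).2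
    rw [insert_erase ha] at h4
    omega

/-- growing inside a connected set -/
theorem exists_connected_sub (F : SimpleGraph V) (A B : Finset V) (D t : ℕ) (C : Finset V)
    (hC : CutConn F C)
    (hD : ∀ v ∈ C, (A.filter fun x => F.Adj v x).card ≤ D ∧ (B.filter fun x => F.Adj v x).card ≤ D)
    (ht : t ≤ sz F A B C) (ht1 : 1 ≤ t) :
    ∃ I ⊆ C, CutConn F I ∧ t ≤ sz F A B I ∧ sz F A B I + 1 ≤ t + D := by
  obtain ⟨⟨c, hc⟩, hC'⟩ := hC
  by_cases hcase : t ≤ sz F A B {c}
  · refine ⟨{c}, singleton_subset_iff.2 hc, ⟨⟨c, mem_singleton_self c⟩, ?_⟩, hcase, ?_⟩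
    · intro U hU hUne _
      exact (subset_singleton_iff.1 hU).resolve_left hUne.ne_empty
    · have h1 := sz_insert_le (S := ∅) (hD c hc).1 (hD c hc).2
      have h0 : sz F A B (∅ : Finset V) = 0 := by
        simp [sz, nb]
      rw [LawfulSingleton.insert_empty_eq] at h1
      omega
  -- a maximal connected subset with small neighbourhood
  obtain ⟨good, hgood⟩ : ∃ good : Finset V → Prop, ∀ P, good P ↔
      (CutConn F P ∧ sz F A B P < t) := ⟨_, fun _ => Iff.rfl⟩
  have hne : (C.powerset.filter fun P => good P).Nonempty := by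
    refine ⟨{c}, mem_filter.2 ⟨mem_powerset.2 (singleton_subset_iff.2 hc), (hgood _).2
      ⟨⟨⟨c, mem_singleton_self c⟩, ?_⟩, not_le.1 hcase⟩⟩⟩
    intro U hU hUne _
    exact (subset_singleton_iff.1 hU).resolve_left hUne.ne_empty
  obtain ⟨I, hI, hmax⟩ := exists_max_image (C.powerset.filter fun P => good P)
    (fun P => P.card) hne
  obtain ⟨hIC, hI'⟩ := mem_filter.1 hI
  rw [mem_powerset] at hIC
  obtain ⟨hIconn, hIt⟩ := (hgood _).1 hI'
  have hIne : I ≠ C := by
    rintro rfl
    omega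
  -- an edge leaving `I`
  have hex : ∃ u ∈ I, ∃ v ∈ C, v ∉ I ∧ F.Adj u v := by
    by_contra hno
    push Not at hno
    exact hIne (hC' I hIC hIconn.1 fun u hu v hv hvI => hno u hu v hv hvI)
  obtain ⟨u, hu, v, hv, hvI, huv⟩ := hex
  have hconn : CutConn F (insert v I) := by
    refine ⟨⟨v, mem_insert_self _ _⟩, ?_⟩
    intro U hU hUne hcl
    by_cases hUI : (U ∩ I).Nonempty
    · have h1 : U ∩ I = I := hIconn.2 _ inter_subset_right hUI (by
        intro a ha b hb hbU
        exact hcl a (mem_inter.1 ha).1 b (mem_insert_of_mem hb) fun h => hbU (mem_inter.2 ⟨h, hb⟩))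
      have h2 : I ⊆ U := inter_eq_right.1 h1
      have h3 : v ∈ U := by
        by_contra hvU
        exact hcl u (h2 hu) v (mem_insert_self _ _) hvU huv
      exact Subset.antisymm hU (insert_subset h3 h2)
    · have h1 : U ⊆ {v} := by
        intro x hx
        rcases mem_insert.1 (hU hx) with h | h
        · exact mem_singleton.2 h
        · exact absurd ⟨x, mem_inter.2 ⟨hx, h⟩⟩ hUI
      have h2 : U = {v} := (subset_singleton_iff.1 h1).resolve_left hUne.ne_empty
      exfalso
      refine hcl v (by rw [h2]; exact mem_singleton_self v) u (mem_insert_of_mem hu) ?_ huv.symm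
      rw [h2, mem_singleton]
      rintro rfl
      exact hvI hu
  refine ⟨insert v I, insert_subset hv hIC, hconn, ?_, ?_⟩
  · by_contra hcon
    have h1 := hmax (insert v I) (mem_filter.2 ⟨mem_powerset.2 (insert_subset hv hIC),
      (hgood _).2 ⟨hconn, not_le.1 hcon⟩⟩)
    have h2 := card_insert_of_notMem hvI
    omega
  · have := sz_insert_le (S := I) (hD v hv).1 (hD v hv).2
    omega

/-- a pair without large anticomplete subpairs: every set which is large on one side has a
neighbourhood covering almost all of the other side -/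
theorem card_nb_ge (F : SimpleGraph V) (A B : Finset V) (h : ℕ)
    (hbi : ∀ P ⊆ A, ∀ Q ⊆ B, h ≤ P.card → h ≤ Q.card → ∃ p ∈ P, ∃ q ∈ Q, F.Adj p q)
    (S : Finset V) (hS : h ≤ (S ∩ A).card) : B.card ≤ (nb F B S).card + h := by
  by_contra hcon
  have h1 : h ≤ (B \ nb F B S).card := by
    have := le_card_sdiff (nb F B S) B
    omega
  obtain ⟨p, hp, q, hq, hpq⟩ := hbi (S ∩ A) inter_subset_right (B \ nb F B S) sdiff_subset hS h1
  rw [mem_sdiff] at hq
  exact hq.2 (mem_nb.2 ⟨hq.1, p, (mem_inter.1 hp).1, hpq⟩)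

theorem hbi_symm {F : SimpleGraph V} {A B : Finset V} {h : ℕ}
    (hbi : ∀ P ⊆ A, ∀ Q ⊆ B, h ≤ P.card → h ≤ Q.card → ∃ p ∈ P, ∃ q ∈ Q, F.Adj p q) :
    ∀ P ⊆ B, ∀ Q ⊆ A, h ≤ P.card → h ≤ Q.card → ∃ p ∈ P, ∃ q ∈ Q, F.Adj p q := by
  intro P hP Q hQ hPc hQc
  obtain ⟨q, hq, p, hp, hqp⟩ := hbi Q hQ P hP hQc hPc
  exact ⟨p, hp, q, hq, hqp.symm⟩

/-- **Giant component.** -/
theorem exists_giant (F : SimpleGraph V) (A B : Finset V) (h : ℕ) (hh : 0 < h)
    (hbi : ∀ P ⊆ A, ∀ Q ⊆ B, h ≤ P.card → h ≤ Q.card → ∃ p ∈ P, ∃ q ∈ Q, F.Adj p q)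
    (W : Finset V) (hA : 3 * h ≤ (W ∩ A).card) (hB : 2 * h ≤ (W ∩ B).card) :
    ∃ C ⊆ W, CutConn F C ∧ (h ≤ (C ∩ A).card ∨ h ≤ (C ∩ B).card) := by
  obtain ⟨closed, hclosed⟩ : ∃ closed : Finset V → Prop, ∀ U, closed U ↔
      (∀ u ∈ U, ∀ v ∈ W, v ∉ U → ¬ F.Adj u v) := ⟨_, fun _ => Iff.rfl⟩
  -- a minimal closed set which is large in `A`
  have hne : (W.powerset.filter fun U => closed U ∧ h ≤ (U ∩ A).card).Nonempty := by
    refine ⟨W, mem_filter.2 ⟨mem_powerset_self _, (hclosed _).2 ?_, by omega⟩⟩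
    intro u _ v hv hv'
    exact absurd hv hv'
  obtain ⟨U, hU, hmin⟩ := exists_min_image
    (W.powerset.filter fun U => closed U ∧ h ≤ (U ∩ A).card) (fun U => U.card) hne
  obtain ⟨hUW, hUcl, hUh⟩ := mem_filter.1 hU
  rw [mem_powerset] at hUW
  rw [hclosed] at hUcl
  -- a vertex of `U` in `A` and a minimal closed set containing it
  obtain ⟨a, ha⟩ : (U ∩ A).Nonempty := card_pos.1 (by omega)
  obtain ⟨haU, haA⟩ := mem_inter.1 ha
  have hne2 : (U.powerset.filter fun C => closed C ∧ a ∈ C).Nonempty :=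
    ⟨U, mem_filter.2 ⟨mem_powerset_self _, (hclosed _).2 hUcl, haU⟩⟩
  obtain ⟨C, hC, hminC⟩ := exists_min_image
    (U.powerset.filter fun C => closed C ∧ a ∈ C) (fun C => C.card) hne2
  obtain ⟨hCU, hCcl, haC⟩ := mem_filter.1 hC
  rw [mem_powerset] at hCU
  rw [hclosed] at hCcl
  have hCW := hCU.trans hUW
  have hconn : CutConn F C := by
    refine ⟨⟨a, haC⟩, ?_⟩
    intro X hX hXne hXcl
    have hX1 : closed X := by
      rw [hclosed]
      intro u hu v hv hvX
      by_cases hvC : v ∈ C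
      · exact hXcl u hu v hvC hvX
      · exact hCcl u (hX hu) v hv hvC
    have hX2 : closed (C \ X) := by
      rw [hclosed]
      intro u hu v hv hvX huv
      rw [mem_sdiff] at hu hvX
      by_cases hvC : v ∈ C
      · have hvX' : v ∈ X := by
          by_contra h'
          exact hvX ⟨hvC, h'⟩
        exact hXcl v hvX' u hu.1 hu.2 huv.symm
      · exact hCcl u hu.1 v hv hvC huv
    by_cases haX : a ∈ X
    · have h1 := hminC X (mem_filter.2 ⟨mem_powerset.2 (hX.trans hCU), hX1, haX⟩)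
      exact eq_of_subset_of_card_le hX h1
    · have h1 := hminC (C \ X) (mem_filter.2 ⟨mem_powerset.2 (sdiff_subset.trans hCU), hX2,
        mem_sdiff.2 ⟨haC, haX⟩⟩)
      obtain ⟨x, hx⟩ := hXne
      have h2 : (C \ X).card < C.card := card_lt_card
        ⟨sdiff_subset, fun hs => (mem_sdiff.1 (hs (hX hx))).2 hx⟩
      omega
  by_cases hbig : h ≤ (C ∩ A).card ∨ h ≤ (C ∩ B).card
  · exact ⟨C, hCW, hconn, hbig⟩
  exfalso
  rw [not_or, not_le, not_le] at hbig
  -- `U` is not much larger than `h` on `A`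
  have hUsmall : (U ∩ A).card < 2 * h := by
    by_contra hcon
    have hcl : closed (U \ C) := by
      rw [hclosed]
      intro u hu v hv hvX huv
      rw [mem_sdiff] at hu hvX
      by_cases hvU : v ∈ U
      · have hvC : v ∈ C := by
          by_contra h'
          exact hvX ⟨hvU, h'⟩
        exact hCcl v hvC u (hUW hu.1) hu.2 huv.symm
      · exact hUcl u hu.1 v hv hvU huv
    have h3 : (U ∩ A).card ≤ ((U \ C) ∩ A).card + (C ∩ A).card := by
      rw [← card_sdiff_add_card_inter (U ∩ A) C]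
      refine Nat.add_le_add (card_le_card ?_) (card_le_card ?_)
      · intro x hx
        simp only [mem_sdiff, mem_inter] at hx ⊢
        exact ⟨⟨hx.1.1, hx.2⟩, hx.1.2⟩
      · intro x hx
        simp only [mem_inter] at hx ⊢
        exact ⟨hx.2, hx.1.2⟩
    have h1 := hmin (U \ C) (mem_filter.2 ⟨mem_powerset.2 (sdiff_subset.trans hUW), hcl, by omega⟩)
    have h2 : (U \ C).card < U.card := card_lt_card
      ⟨sdiff_subset, fun hs => (mem_sdiff.1 (hs haU)).2 haC⟩
    omega
  -- the rest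
  have hanti : ∀ u ∈ U, ∀ v ∈ W \ U, ¬ F.Adj u v := fun u hu v hv =>
    hUcl u hu v (mem_sdiff.1 hv).1 (mem_sdiff.1 hv).2
  have hrestA : h ≤ ((W \ U) ∩ A).card := by
    have h3 : (W ∩ A).card ≤ ((W \ U) ∩ A).card + (U ∩ A).card := by
      rw [← card_sdiff_add_card_inter (W ∩ A) U]
      refine Nat.add_le_add (card_le_card ?_) (card_le_card ?_)
      · intro x hx
        simp only [mem_sdiff, mem_inter] at hx ⊢
        exact ⟨⟨hx.1.1, hx.2⟩, hx.1.2⟩
      · intro x hx
        simp only [mem_inter] at hx ⊢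
        exact ⟨hx.2, hx.1.2⟩
    omega
  have hrestB : ((W \ U) ∩ B).card < h := by
    by_contra hcon
    obtain ⟨p, hp, q, hq, hpq⟩ := hbi (U ∩ A) inter_subset_right ((W \ U) ∩ B) inter_subset_right
      hUh (not_lt.1 hcon)
    exact hanti p (mem_inter.1 hp).1 q (mem_inter.1 hq).1 hpq
  have hUB : (U ∩ B).card < h := by
    by_contra hcon
    obtain ⟨p, hp, q, hq, hpq⟩ := hbi ((W \ U) ∩ A) inter_subset_right (U ∩ B) inter_subset_right
      hrestA (not_lt.1 hcon)
    exact hanti q (mem_inter.1 hq).1 p (mem_inter.1 hp).1 hpq.symm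
  have h3 : (W ∩ B).card ≤ ((W \ U) ∩ B).card + (U ∩ B).card := by
    rw [← card_sdiff_add_card_inter (W ∩ B) U]
    refine Nat.add_le_add (card_le_card ?_) (card_le_card ?_)
    · intro x hx
      simp only [mem_sdiff, mem_inter] at hx ⊢
      exact ⟨⟨hx.1.1, hx.2⟩, hx.1.2⟩
    · intro x hx
      simp only [mem_inter] at hx ⊢
      exact ⟨hx.2, hx.1.2⟩
  omega

/-- **One hub.** A connected set outside a forbidden set, with prescribed size of the
neighbourhood. -/
theorem exists_hub (F : SimpleGraph V) (A B : Finset V) (D h t : ℕ) (hh : 0 < h)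
    (hD : ∀ v ∈ A ∪ B, (A.filter fun x => F.Adj v x).card ≤ D ∧
      (B.filter fun x => F.Adj v x).card ≤ D)
    (hbi : ∀ P ⊆ A, ∀ Q ⊆ B, h ≤ P.card → h ≤ Q.card → ∃ p ∈ P, ∃ q ∈ Q, F.Adj p q)
    (E : Finset V) (hA : 3 * h ≤ (A \ E).card) (hB : 2 * h ≤ (B \ E).card)
    (ht1 : 1 ≤ t) (htA : t + D + h < A.card) (htB : t + D + h < B.card) :
    ∃ I ⊆ (A ∪ B) \ E, CutConn F I ∧ t ≤ sz F A B I ∧ sz F A B I + 1 ≤ t + D ∧
      (I ∩ A).card < h ∧ (I ∩ B).card < h := by
  obtain ⟨C, hCW, hconn, hbig⟩ := exists_giant F A B h hh hbi ((A ∪ B) \ E)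
    (hA.trans (card_le_card (by
      intro x hx
      simp only [mem_sdiff, mem_inter, mem_union] at hx ⊢
      tauto)))
    (hB.trans (card_le_card (by
      intro x hx
      simp only [mem_sdiff, mem_inter, mem_union] at hx ⊢
      tauto)))
  have hsz : t ≤ sz F A B C := by
    rcases hbig with h1 | h1
    · have h2 := card_nb_ge F A B h hbi C h1
      unfold sz
      omega
    · have h2 := card_nb_ge F B A h (hbi_symm hbi) C h1
      unfold sz
      omega
  obtain ⟨I, hIC, hI1, hI2, hI3⟩ := exists_connected_sub F A B D t C hconn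
    (fun v hv => hD v (mem_sdiff.1 (hCW hv)).1) hsz ht1
  refine ⟨I, hIC.trans hCW, hI1, hI2, hI3, ?_, ?_⟩
  · by_contra hcon
    have h2 := card_nb_ge F A B h hbi I (not_lt.1 hcon)
    unfold sz at hI3
    omega
  · by_contra hcon
    have h2 := card_nb_ge F B A h (hbi_symm hbi) I (not_lt.1 hcon)
    unfold sz at hI3
    omega

end Pool.Agent.Helper68.Piv
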