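import Pool.Agent.Helper68.Piv.Reg2

/-!
# The homogeneous pair
-/

set_option autoImplicit false

open Finset
open scoped Classical

namespace Pool.Agent.Helper68.Piv

theorem card_filter_eq_sum_ind {α β : Type*} (R : α → β → Prop) (a : α) (B : Finset β) :
    ((B.filter fun b => R a b).card : ℝ) = ∑ b ∈ B, ind R a b := by
  rw [card_filter]
  push_cast
  rfl

theorem card_filter_not_eq_sum {α β : Type*} (R : α → β → Prop) (a : α) (B : Finset β) :
    ((B.filter fun b => ¬ R a b).card : ℝ) = ∑ b ∈ B, (1 - ind R a b) := by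
  rw [card_filter]
  push_cast
  refine sum_congr rfl fun b _ => ?_
  unfold ind
  by_cases h : R a b <;> simp [h]

theorem markov {α : Type*} (A : Finset α) (f : α → ℝ) (hf : ∀ a ∈ A, 0 ≤ f a) (M : ℝ)
    (hM : 0 < M) (h : ∑ a ∈ A, f a ≤ M * A.card) :
    4 * ((A.filter fun a => ¬ f a ≤ 4 * M).card : ℝ) ≤ A.card := by
  have h1 : ((A.filter fun a => ¬ f a ≤ 4 * M).card : ℝ) * (4 * M) ≤ M * A.card := by
    calc ((A.filter fun a => ¬ f a ≤ 4 * M).card : ℝ) * (4 * M)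
        = ∑ _a ∈ A.filter (fun a => ¬ f a ≤ 4 * M), 4 * M := by rw [sum_const, nsmul_eq_mul]
      _ ≤ ∑ a ∈ A.filter (fun a => ¬ f a ≤ 4 * M), f a :=
          sum_le_sum fun a ha => (not_le.1 (mem_filter.1 ha).2).le
      _ ≤ ∑ a ∈ A, f a :=
          sum_le_sum_of_subset_of_nonneg (filter_subset _ _) fun a ha _ => hf a ha
      _ ≤ M * A.card := h
  have h2 : M * (4 * ((A.filter fun a => ¬ f a ≤ 4 * M).card : ℝ)) ≤ M * A.card := by linarith
  exact le_of_mul_le_mul_left h2 hM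

/-- many elements satisfy both bounds -/
theorem card_good {α : Type*} (A : Finset α) (f g : α → ℝ) (hf : ∀ a ∈ A, 0 ≤ f a)
    (hg : ∀ a ∈ A, 0 ≤ g a) (M : ℝ) (hM : 0 < M) (h1 : ∑ a ∈ A, f a ≤ M * A.card)
    (h2 : ∑ a ∈ A, g a ≤ M * A.card) :
    (A.card : ℝ) ≤ 2 * (A.filter fun a => f a ≤ 4 * M ∧ g a ≤ 4 * M).card := by
  have e1 := markov A f hf M hM h1
  have e2 := markov A g hg M hM h2
  have e3 : A.card ≤ (A.filter fun a => f a ≤ 4 * M ∧ g a ≤ 4 * M).card +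
      ((A.filter fun a => ¬ f a ≤ 4 * M).card + (A.filter fun a => ¬ g a ≤ 4 * M).card) := by
    rw [← card_filter_add_card_filter_not (s := A) (fun a => f a ≤ 4 * M ∧ g a ≤ 4 * M)]
    refine Nat.add_le_add_left ?_ _
    refine (card_le_card ?_).trans (card_union_le _ _)
    intro a
    simp only [mem_filter, mem_union]
    tauto
  have e4 : (A.card : ℝ) ≤ (A.filter fun a => f a ≤ 4 * M ∧ g a ≤ 4 * M).card +
      ((A.filter fun a => ¬ f a ≤ 4 * M).card + (A.filter fun a => ¬ g a ≤ 4 * M).card) := by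
    exact_mod_cast e3
  linarith

/-- choice of two disjoint subsets of size `q` -/
theorem exists_two_disjoint {α : Type*} (A B : Finset α) (q : ℕ) (hA : 2 * q ≤ A.card)
    (hB : q ≤ B.card) : ∃ A2 ⊆ A, ∃ B2 ⊆ B, A2.card = q ∧ B2.card = q ∧ Disjoint A2 B2 := by
  obtain ⟨B2, hB2, hB2c⟩ := exists_subset_card_eq hB
  obtain ⟨A2, hA2, hA2c⟩ := exists_subset_card_eq (show q ≤ (A \ B2).card by
    have := le_card_sdiff B2 A
    omega)
  refine ⟨A2, hA2.trans sdiff_subset, B2, hB2, hA2c, hB2c, ?_⟩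
  rw [disjoint_left]
  intro x hx hx'
  exact (mem_sdiff.1 (hA2 hx)).2 hx'

/-- **The homogeneous pair.** In a graph without a shattered set of size `d`, a pair `U, W` of sets
with at least `m` elements and density at least `η` contains disjoint sets `A, B` of the same size
at least `c m` such that `A, B` is nearly complete, and both `A` and `B` are nearly edgeless or
both are nearly complete (all in the sense of degrees). -/
theorem exists_hom_pair (d : ℕ) (η δ : ℝ) (hη : 0 < η) (hδ : 0 < δ) :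
    ∃ c : ℝ, 0 < c ∧ c ≤ 1 ∧ ∀ (V : Type) (G : SimpleGraph V), ¬ Sh G d →
      ∀ (U W : Finset V) (m : ℕ), 1 ≤ c * m → m ≤ U.card → m ≤ W.card →
      η * (U.card * W.card) ≤ eR G.Adj U W →
      ∃ A B : Finset V, A ⊆ U ∪ W ∧ B ⊆ U ∪ W ∧ Disjoint A B ∧ A.card = B.card ∧
        c * m ≤ A.card ∧
        (∀ a ∈ A, ((B.filter fun b => ¬ G.Adj a b).card : ℝ) ≤ δ * B.card) ∧
        (∀ b ∈ B, ((A.filter fun a => ¬ G.Adj b a).card : ℝ) ≤ δ * A.card) ∧
        (((∀ a ∈ A, ((A.filter fun b => G.Adj a b).card : ℝ) ≤ δ * A.card) ∧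
          (∀ b ∈ B, ((B.filter fun a => G.Adj b a).card : ℝ) ≤ δ * B.card)) ∨
        ((∀ a ∈ A, ((A.filter fun b => ¬ G.Adj a b).card : ℝ) ≤ δ * A.card) ∧
          (∀ b ∈ B, ((B.filter fun a => ¬ G.Adj b a).card : ℝ) ≤ δ * B.card))) := by
  set δ1 : ℝ := δ / 32 with hδ1
  have hδ1pos : 0 < δ1 := by positivity
  obtain ⟨c2, hc20, hc21, hc2⟩ := exists_homSets d δ1 hδ1pos
  obtain ⟨c1, hc10, hc11, hc1⟩ := exists_dense_pair d η (δ1 * c2 ^ 2) hη (by positivity)
  refine ⟨c1 * c2 / 16, by positivity, by nlinarith, fun V G hG U W m hm hU hW he => ?_⟩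
  have hm0 : 0 < m := by
    rcases Nat.eq_zero_or_pos m with h | h
    · rw [h] at hm; norm_num at hm
    · exact h
  have hmpos : (0 : ℝ) < m := by exact_mod_cast hm0
  have hUne : U.Nonempty := card_pos.1 (by omega)
  have hWne : W.Nonempty := card_pos.1 (by omega)
  -- equal sizes
  obtain ⟨U0, hU0, W0, hW0, hU0c, hW0c, hn0⟩ := exists_shrink_pair G.Adj U W (1 - η) m m hU hW
    hUne hWne (by
      have := eR_add_nR G.Adj U W
      linarith)
  have he0 : η * ((U0.card : ℝ) * W0.card) ≤ eR G.Adj U0 W0 := by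
    have := eR_add_nR G.Adj U0 W0
    rw [hU0c, hW0c] at this ⊢
    linarith
  have hm1 : 16 ≤ c1 * c2 * m := by linarith
  have hm2 : 16 ≤ c1 * m := by nlinarith [mul_pos hc10 hmpos]
  obtain ⟨A, hA, B, hB, hAc, hBc, hn⟩ := hc1 V V G.Adj U0 W0 (card_pos.1 (by omega))
    (card_pos.1 (by omega)) (fun h => hG (Sh.of_ShR h)) (fun h => hG (Sh.of_ShR' h)) he0
  rw [hU0c] at hAc
  rw [hW0c] at hBc
  -- the size `s`
  set s : ℕ := ⌊c1 * m⌋₊ with hs
  have hs1 : (s : ℝ) ≤ c1 * m := Nat.floor_le (by positivity)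
  have hs2 : c1 * m / 2 ≤ s := by
    have := Nat.lt_floor_add_one (c1 * (m : ℝ))
    rw [← hs] at this
    linarith
  have hAne : A.Nonempty := by
    rw [← card_pos]
    have : (0 : ℝ) < A.card := by linarith
    exact_mod_cast this
  have hBne : B.Nonempty := by
    rw [← card_pos]
    have : (0 : ℝ) < B.card := by linarith
    exact_mod_cast this
  obtain ⟨A0, hA0, B0, hB0, hA0c, hB0c, hnn⟩ := exists_shrink_pair G.Adj A B (δ1 * c2 ^ 2) s s
    (by exact_mod_cast hs1.trans hAc) (by exact_mod_cast hs1.trans hBc) hAne hBne hn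
  have hcs : 8 ≤ c2 * s := by
    have : c2 * (c1 * m / 2) ≤ c2 * s := mul_le_mul_of_nonneg_left hs2 hc20.le
    nlinarith
  obtain ⟨A1, hA1, B1, hB1, hAB, hN, hAh, hBh⟩ := hc2 V G hG A0 B0 s (by linarith) hA0c hB0c
  set N : ℕ := A1.card with hNdef
  have hN8 : (8 : ℝ) ≤ N := hcs.trans hN
  have hN8' : 8 ≤ N := by exact_mod_cast hN8
  have hNpos : (0 : ℝ) < N := by linarith
  have hn1 : nR G.Adj A1 B1 ≤ δ1 * (N * N) := by
    have h1 := nR_mono G.Adj hA1 hB1
    have h2 : (c2 * s) * (c2 * s) ≤ (N : ℝ) * N := mul_le_mul hN hN (by positivity) (by positivity)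
    calc nR G.Adj A1 B1 ≤ _ := h1
      _ ≤ δ1 * c2 ^ 2 * (s * s) := hnn
      _ = δ1 * ((c2 * s) * (c2 * s)) := by ring
      _ ≤ δ1 * (N * N) := mul_le_mul_of_nonneg_left h2 hδ1pos.le
  have hn1' : nR G.Adj B1 A1 ≤ δ1 * (N * N) := by
    rw [← nR_swap] at hn1
    have : nR (fun w u => G.Adj u w) B1 A1 = nR G.Adj B1 A1 := by
      unfold nR ind
      simp only [G.adj_comm]
    rwa [this] at hn1
  -- the final size
  set q : ℕ := N / 4 with hq
  have hq1 : 4 * q ≤ N := by omega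
  have hq2 : N ≤ 8 * q := by omega
  have hq2' : (N : ℝ) ≤ 8 * q := by exact_mod_cast hq2
  have hqc : c1 * c2 / 16 * m ≤ q := by
    have h1 : c2 * (c1 * m / 2) ≤ c2 * s := mul_le_mul_of_nonneg_left hs2 hc20.le
    nlinarith
  have hbound : 4 * (δ1 * N) ≤ δ * q := by
    have : δ1 * N ≤ δ1 * (8 * q) := mul_le_mul_of_nonneg_left hq2' hδ1pos.le
    calc 4 * (δ1 * N) ≤ 4 * (δ1 * (8 * q)) := by linarith
      _ = δ * q := by rw [hδ1]; ring
  have hA1U : A1 ⊆ U ∪ W := hA1.trans (hA0.trans (hA.trans (hU0.trans subset_union_left)))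
  have hB1U : B1 ⊆ U ∪ W := hB1.trans (hB0.trans (hB.trans (hW0.trans subset_union_right)))
  have hind1 : ∀ a b : V, 0 ≤ 1 - ind G.Adj a b := fun a b => by linarith [ind_le_one G.Adj a b]
  -- the complete case
  have hcomplete : ∀ C : Finset V, C ⊆ U ∪ W → C.card = N → nR G.Adj C C ≤ δ1 * (N * N) →
      ∃ A B : Finset V, A ⊆ U ∪ W ∧ B ⊆ U ∪ W ∧ Disjoint A B ∧ A.card = B.card ∧
        c1 * c2 / 16 * m ≤ A.card ∧
        (∀ a ∈ A, ((B.filter fun b => ¬ G.Adj a b).card : ℝ) ≤ δ * B.card) ∧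
        (∀ b ∈ B, ((A.filter fun a => ¬ G.Adj b a).card : ℝ) ≤ δ * A.card) ∧
        (((∀ a ∈ A, ((A.filter fun b => G.Adj a b).card : ℝ) ≤ δ * A.card) ∧
          (∀ b ∈ B, ((B.filter fun a => G.Adj b a).card : ℝ) ≤ δ * B.card)) ∨
        ((∀ a ∈ A, ((A.filter fun b => ¬ G.Adj a b).card : ℝ) ≤ δ * A.card) ∧
          (∀ b ∈ B, ((B.filter fun a => ¬ G.Adj b a).card : ℝ) ≤ δ * B.card))) := by
    intro C hCU hCc hCn
    have hnn : ∀ a ∈ C, 0 ≤ ∑ b ∈ C, (1 - ind G.Adj a b) := fun a _ =>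
      sum_nonneg fun b _ => hind1 a b
    have hsum : ∑ a ∈ C, ∑ b ∈ C, (1 - ind G.Adj a b) ≤ δ1 * N * C.card := by
      rw [hCc]
      have : nR G.Adj C C = ∑ a ∈ C, ∑ b ∈ C, (1 - ind G.Adj a b) := rfl
      rw [← this]
      linarith
    have hg := card_good C (fun a => ∑ b ∈ C, (1 - ind G.Adj a b))
      (fun a => ∑ b ∈ C, (1 - ind G.Adj a b)) hnn hnn (δ1 * N) (by positivity) hsum hsum
    set Cg := C.filter fun a => ∑ b ∈ C, (1 - ind G.Adj a b) ≤ 4 * (δ1 * N) ∧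
      ∑ b ∈ C, (1 - ind G.Adj a b) ≤ 4 * (δ1 * N) with hCg
    rw [hCc] at hg
    have hg' : N ≤ 2 * Cg.card := by exact_mod_cast hg
    obtain ⟨A2, hA2, B2, hB2, hA2c, hB2c, hdisj⟩ := exists_two_disjoint Cg Cg q (by omega)
      (by omega)
    have hCgC : Cg ⊆ C := filter_subset _ _
    have key : ∀ a ∈ Cg, ∀ D ⊆ C, ((D.filter fun b => ¬ G.Adj a b).card : ℝ) ≤ δ * q := by
      intro a ha D hD
      rw [card_filter_not_eq_sum]
      calc ∑ b ∈ D, (1 - ind G.Adj a b) ≤ ∑ b ∈ C, (1 - ind G.Adj a b) :=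
            sum_le_sum_of_subset_of_nonneg hD fun b _ _ => hind1 a b
        _ ≤ 4 * (δ1 * N) := (mem_filter.1 ha).2.1
        _ ≤ δ * q := hbound
    refine ⟨A2, B2, hA2.trans (hCgC.trans hCU), hB2.trans (hCgC.trans hCU), hdisj,
      hA2c.trans hB2c.symm, by rw [hA2c]; exact hqc, ?_, ?_, Or.inr ⟨?_, ?_⟩⟩
    · intro a ha; rw [hB2c]; exact key a (hA2 ha) B2 (hB2.trans hCgC)
    · intro a ha; rw [hA2c]; exact key a (hB2 ha) A2 (hA2.trans hCgC)
    · intro a ha; rw [hA2c]; exact key a (hA2 ha) A2 (hA2.trans hCgC)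
    · intro a ha; rw [hB2c]; exact key a (hB2 ha) B2 (hB2.trans hCgC)
  rcases hAh with hAs | hAf
  · rcases hBh with hBs | hBf
    · -- the sparse case
      rw [← hNdef] at hAs
      rw [← hAB] at hBs
      have good : ∀ X Y : Finset V, X.card = N → nR G.Adj X Y ≤ δ1 * (N * N) →
          eR G.Adj X X ≤ δ1 * (N * N) →
          ∃ Xg ⊆ X, N ≤ 2 * Xg.card ∧ ∀ a ∈ Xg,
            (∀ D ⊆ Y, ((D.filter fun b => ¬ G.Adj a b).card : ℝ) ≤ δ * q) ∧
            (∀ D ⊆ X, ((D.filter fun b => G.Adj a b).card : ℝ) ≤ δ * q) := by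
        intro X Y hX h1 h2
        have hs1 : ∑ a ∈ X, ∑ b ∈ Y, (1 - ind G.Adj a b) ≤ δ1 * N * X.card := by
          rw [hX]
          have : nR G.Adj X Y = ∑ a ∈ X, ∑ b ∈ Y, (1 - ind G.Adj a b) := rfl
          rw [← this]
          linarith
        have hs2 : ∑ a ∈ X, ∑ b ∈ X, ind G.Adj a b ≤ δ1 * N * X.card := by
          rw [hX]
          have : eR G.Adj X X = ∑ a ∈ X, ∑ b ∈ X, ind G.Adj a b := rfl
          rw [← this]
          linarith
        have hg := card_good X (fun a => ∑ b ∈ Y, (1 - ind G.Adj a b))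
          (fun a => ∑ b ∈ X, ind G.Adj a b) (fun a _ => sum_nonneg fun b _ => hind1 a b)
          (fun a _ => sum_nonneg fun b _ => ind_nonneg _ a b) (δ1 * N) (by positivity) hs1 hs2
        rw [hX] at hg
        refine ⟨_, filter_subset _ _, by exact_mod_cast hg, ?_⟩
        intro a ha
        refine ⟨fun D hD => ?_, fun D hD => ?_⟩
        · rw [card_filter_not_eq_sum]
          calc ∑ b ∈ D, (1 - ind G.Adj a b) ≤ ∑ b ∈ Y, (1 - ind G.Adj a b) :=
                sum_le_sum_of_subset_of_nonneg hD fun b _ _ => hind1 a b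
            _ ≤ 4 * (δ1 * N) := (mem_filter.1 ha).2.1
            _ ≤ δ * q := hbound
        · rw [card_filter_eq_sum_ind]
          calc ∑ b ∈ D, ind G.Adj a b ≤ ∑ b ∈ X, ind G.Adj a b :=
                sum_le_sum_of_subset_of_nonneg hD fun b _ _ => ind_nonneg _ a b
            _ ≤ 4 * (δ1 * N) := (mem_filter.1 ha).2.2
            _ ≤ δ * q := hbound
      obtain ⟨Ag, hAg, hAgc, hAgg⟩ := good A1 B1 rfl hn1 hAs
      obtain ⟨Bg, hBg, hBgc, hBgg⟩ := good B1 A1 hAB.symm hn1' hBs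
      obtain ⟨A2, hA2, B2, hB2, hA2c, hB2c, hdisj⟩ := exists_two_disjoint Ag Bg q (by omega)
        (by omega)
      refine ⟨A2, B2, hA2.trans (hAg.trans hA1U), hB2.trans (hBg.trans hB1U), hdisj,
        hA2c.trans hB2c.symm, by rw [hA2c]; exact hqc, ?_, ?_, Or.inl ⟨?_, ?_⟩⟩
      · intro a ha; rw [hB2c]; exact (hAgg a (hA2 ha)).1 B2 (hB2.trans hBg)
      · intro a ha; rw [hA2c]; exact (hBgg a (hB2 ha)).1 A2 (hA2.trans hAg)
      · intro a ha; rw [hA2c]; exact (hAgg a (hA2 ha)).2 A2 (hA2.trans hAg)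
      · intro a ha; rw [hB2c]; exact (hBgg a (hB2 ha)).2 B2 (hB2.trans hBg)
    · rw [← hAB] at hBf
      exact hcomplete B1 hB1U hAB.symm hBf
  · exact hcomplete A1 hA1U rfl hAf

end Pool.Agent.Helper68.Piv
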