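import Pool.Agent.Helper32.Piv.Pivot3
import Pool.Agent.Helper55.RD.Comb

/-!
# Large VC dimension gives every bipartite graph as a pivot-minor

If a large set `X` of vertices is shattered by the neighbourhoods of vertices outside of `X`, then
every fixed bipartite graph is a pivot-minor. The host graph is arbitrary.
-/

set_option autoImplicit false
set_option linter.deprecated false
set_option linter.unusedSimpArgs false

open Finset Pool.Agent.Helper32.Piv Pool.Agent.Helper55.RD
open scoped Classical

namespace Pool.Agent.Helper68.Piv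

/-- elimination, with the eliminated set given by an injective family -/
theorem hasPivotMinor_of_index {V W ι : Type*} [Fintype ι] (G : SimpleGraph V) (H : SimpleGraph W)
    (g : ι → V) (hg : Function.Injective g) (N : ι → ι → ZMod 2) (hsymm : ∀ i j, N i j = N j i)
    (hinv : ∀ i j, ∑ t, adjM G (g i) (g t) * N t j = if i = j then 1 else 0)
    (f : W → V) (hf : Function.Injective f) (hfg : ∀ w i, f w ≠ g i)
    (hadj : ∀ a b : W, a ≠ b → adjM H a b = adjM G (f a) (f b) +
      ∑ i, ∑ j, adjM G (f a) (g i) * N i j * adjM G (g j) (f b)) : HasPivotMinor G H := by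
  rcases isEmpty_or_nonempty ι with hι | hι
  · refine hasPivotMinor_of_adjM (PivotReach.refl G) f hf ?_
    intro a b hab
    rw [hadj a b hab]
    simp
  · have hinvF : ∀ i, Function.invFun g (g i) = i := Function.leftInverse_invFun hg
    refine hasPivotMinor_of_elim G H (Finset.univ.map ⟨g, hg⟩)
      (fun s t => N (Function.invFun g s) (Function.invFun g t)) ?_ ?_ f hf ?_ ?_
    · intro s _ t _
      exact hsymm _ _
    · intro s hs s' hs'
      obtain ⟨i, -, rfl⟩ := mem_map.1 hs
      obtain ⟨j, -, rfl⟩ := mem_map.1 hs'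
      rw [Finset.sum_map]
      simp only [Function.Embedding.coeFn_mk, hinvF]
      rw [hinv i j]
      simp only [hg.eq_iff]
    · intro w hw
      obtain ⟨i, -, hi⟩ := mem_map.1 hw
      exact hfg w i hi.symm
    · intro a b hab
      rw [hadj a b hab]
      congr 1
      rw [Finset.sum_map]
      refine Finset.sum_congr rfl fun i _ => ?_
      rw [Finset.sum_map]
      refine Finset.sum_congr rfl fun j _ => ?_
      simp only [Function.Embedding.coeFn_mk, hinvF]

/-- the pattern: two homogeneous families with a prescribed bipartite graph between them -/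
def Pat {V P Q : Type*} (G : SimpleGraph V) (a b : Prop) (R : P → Q → Prop) : Prop :=
  ∃ (x : P → V) (y : Q → V), Function.Injective x ∧ Function.Injective y ∧ (∀ p q, x p ≠ y q) ∧
    (∀ p q, G.Adj (x p) (y q) ↔ R p q) ∧ (∀ p p', p ≠ p' → (G.Adj (x p) (x p') ↔ a)) ∧
    (∀ q q', q ≠ q' → (G.Adj (y q) (y q') ↔ b))

theorem Pat.swap {V P Q : Type*} {G : SimpleGraph V} {a b : Prop} {R : P → Q → Prop}
    (h : Pat G a b R) : Pat G b a (fun q p => R p q) := by
  obtain ⟨x, y, hx, hy, hxy, h1, h2, h3⟩ := h
  exact ⟨y, x, hy, hx, fun q p => (hxy p q).symm, fun q p => by rw [G.adj_comm, h1], h3, h2⟩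

/-- the universal pattern contains all patterns -/
theorem pat_of_univ {V P Q : Type*} [Fintype P] [Fintype Q] {G : SimpleGraph V} {a b : Prop}
    {q : ℕ} (h : Pat G a b (fun (T : Finset (Fin q)) (i : Fin q) => i ∈ T))
    (hq : Fintype.card P + Fintype.card Q ≤ q) (R : P → Q → Prop) : Pat G a b R := by
  obtain ⟨x, y, hx, hy, hxy, h1, h2, h3⟩ := h
  obtain ⟨e⟩ : Nonempty (P ⊕ Q ↪ Fin q) := by
    rw [Function.Embedding.nonempty_iff_card_le]
    simpa using hq
  let T : P → Finset (Fin q) := fun p => Finset.univ.filter fun i =>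
    i = e (Sum.inl p) ∨ ∃ q', i = e (Sum.inr q') ∧ R p q'
  have hT1 : ∀ p q', e (Sum.inr q') ∈ T p ↔ R p q' := by
    intro p q'
    simp [T]
  have hT2 : ∀ p p', e (Sum.inl p') ∈ T p ↔ p' = p := by
    intro p p'
    simp [T]
  have hT3 : Function.Injective T := by
    intro p p' h
    have := hT2 p p
    rw [h, hT2] at this
    exact this.2 rfl
  refine ⟨fun p => x (T p), fun q' => y (e (Sum.inr q')), hx.comp hT3, ?_, ?_, ?_, ?_, ?_⟩
  · intro q1 q2 h
    exact Sum.inr_injective (e.injective (hy h))
  · intro p q'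
    exact hxy _ _
  · intro p q'
    exact (h1 _ _).trans (hT1 p q')
  · intro p p' hpp
    exact h2 _ _ (fun h => hpp (hT3 h))
  · intro q1 q2 hqq
    exact h3 _ _ (fun h => hqq (Sum.inr_injective (e.injective h)))

/-- a large shattered set contains the universal pattern -/
theorem exists_univ (q : ℕ) : ∃ d : ℕ, ∀ (V : Type) (G : SimpleGraph V) (X : Finset V),
    d ≤ X.card → (∀ S ⊆ X, ∃ y, y ∉ X ∧ ∀ x ∈ X, (G.Adj y x ↔ x ∈ S)) →
    ∃ a b : Prop, Pat G a b (fun (T : Finset (Fin q)) (i : Fin q) => i ∈ T) := by
  set N := ram q q with hN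
  set M := Fintype.card (Finset (Fin N)) with hM
  refine ⟨ram M M, fun V G X hX hsh => ?_⟩
  -- a homogeneous subset of `X`
  obtain ⟨a, X', hX', hc, ha⟩ : ∃ (a : Prop) (X' : Finset V), X' ⊆ X ∧ X'.card = M ∧
      ∀ i ∈ X', ∀ j ∈ X', i ≠ j → (G.Adj i j ↔ a) := by
    rcases ramsey G.Adj (fun i j h => h.symm) M M X hX with ⟨A, hA, hAc, hAP⟩ | ⟨B, hB, hBc, hBP⟩
    · exact ⟨True, A, hA, hAc, fun i hi j hj hij => iff_true_intro (hAP i hi j hj hij)⟩
    · exact ⟨False, B, hB, hBc, fun i hi j hj hij => iff_false_intro (hBP i hi j hj hij)⟩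
  have hcard : Fintype.card (Finset (Fin N)) = Fintype.card X' := by
    rw [Fintype.card_coe, hc]
  obtain ⟨e⟩ : Nonempty (Finset (Fin N) ≃ X') := Fintype.card_eq.1 hcard
  have hy : ∀ i : Fin N, ∃ y, y ∉ X ∧ ∀ x ∈ X, (G.Adj y x ↔
      x ∈ (Finset.univ.filter fun T : Finset (Fin N) => i ∈ T).image fun T => (e T : V)) := by
    intro i
    apply hsh
    intro v hv
    obtain ⟨T, -, rfl⟩ := mem_image.1 hv
    exact hX' (e T).2
  choose y hyX hyadj using hy
  have hadj : ∀ (T : Finset (Fin N)) (i : Fin N), G.Adj (e T : V) (y i) ↔ i ∈ T := by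
    intro T i
    rw [G.adj_comm, hyadj i _ (hX' (e T).2), mem_image]
    constructor
    · rintro ⟨T', hT', h⟩
      have : T' = T := e.injective (Subtype.ext h)
      rw [← this]
      exact (mem_filter.1 hT').2
    · intro h
      exact ⟨T, mem_filter.2 ⟨mem_univ _, h⟩, rfl⟩
  have hyinj : Function.Injective y := by
    intro i j hij
    have h1 := (hadj {i} i).2 (mem_singleton_self i)
    rw [hij, hadj] at h1
    exact (mem_singleton.1 h1).symm
  -- a homogeneous subfamily
  obtain ⟨b, A, hA, hb⟩ : ∃ (b : Prop) (A : Finset (Fin N)), A.card = q ∧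
      ∀ i ∈ A, ∀ j ∈ A, i ≠ j → (G.Adj (y i) (y j) ↔ b) := by
    rcases ramsey (fun i j => G.Adj (y i) (y j)) (fun i j h => h.symm) q q
      (Finset.univ : Finset (Fin N)) (by simp [hN]) with ⟨A, _, hAc, hAP⟩ | ⟨B, _, hBc, hBP⟩
    · exact ⟨True, A, hAc, fun i hi j hj hij => iff_true_intro (hAP i hi j hj hij)⟩
    · exact ⟨False, B, hBc, fun i hi j hj hij => iff_false_intro (hBP i hi j hj hij)⟩
  let g : Fin q ↪ Fin N := (A.orderEmbOfFin hA).toEmbedding
  have hgA : ∀ i, g i ∈ A := fun i => A.orderEmbOfFin_mem hA i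
  refine ⟨a, b, fun T => (e (T.map g) : V), fun i => y (g i), ?_, ?_, ?_, ?_, ?_, ?_⟩
  · intro T T' h
    exact Finset.map_injective g (e.injective (Subtype.ext h))
  · exact hyinj.comp g.injective
  · intro T i h
    exact hyX (g i) ((show (e (T.map g) : V) = y (g i) from h) ▸ hX' (e (T.map g)).2)
  · intro T i
    rw [hadj, Finset.mem_map' g]
  · intro T T' hTT
    refine ha _ (e _).2 _ (e _).2 fun h => hTT ?_
    exact Finset.map_injective g (e.injective (Subtype.ext h))
  · intro i j hij
    exact hb _ (hgA i) _ (hgA j) fun h => hij (g.injective h)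

theorem zmod2_add_self (x : ZMod 2) : x + x = 0 := by
  revert x; decide

section Cases

variable {V W : Type*} [Fintype W] (H : SimpleGraph W) (c : W → Prop)

/-- both families independent -/
theorem case00 (hc : ∀ u v, H.Adj u v → (c u ↔ ¬ c v)) (G : SimpleGraph V)
    (h : Pat G False False (fun u v : W => H.Adj u v)) : HasPivotMinor G H := by
  obtain ⟨x, y, hx, hy, hxy, h1, h2, h3⟩ := h
  refine hasPivotMinor_of_embedding (f := ⟨⟨fun w => if c w then x w else y w, ?_⟩, ?_⟩)
  · intro u v huv
    by_cases hu : c u <;> by_cases hv : c v <;> simp only [hu, hv, if_true, if_false] at huv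
    · exact hx huv
    · exact absurd huv (hxy _ _)
    · exact absurd huv.symm (hxy _ _)
    · exact hy huv
  · intro u v
    show G.Adj (if c u then x u else y u) (if c v then x v else y v) ↔ H.Adj u v
    by_cases huv : u = v
    · subst huv
      simp
    by_cases hu : c u <;> by_cases hv : c v <;> simp only [hu, hv, if_true, if_false]
    · rw [h2 _ _ huv]
      exact ⟨fun h => h.elim, fun h => ((hc u v h).1 hu) hv⟩
    · exact h1 _ _
    · rw [G.adj_comm, h1, H.adj_comm]
    · rw [h3 _ _ huv]
      exact ⟨fun h => h.elim, fun h => hu ((hc u v h).2 hv)⟩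

/-- first family a clique, second family independent -/
theorem case10 (hc : ∀ u v, H.Adj u v → (c u ↔ ¬ c v)) (G : SimpleGraph V)
    (h : Pat G True False (fun (s t : W ⊕ W) => match s, t with
      | Sum.inl u, Sum.inl v => H.Adj u v
      | Sum.inl u, Sum.inr v => u = v
      | Sum.inr _, Sum.inl _ => False
      | Sum.inr u, Sum.inr v => u = v)) : HasPivotMinor G H := by
  obtain ⟨x, y, hx, hy, hxy, h1, h2, h3⟩ := h
  have m1 : ∀ s t : W ⊕ W, adjM G (x s) (x t) = if s = t then 0 else 1 := by
    intro s t
    by_cases hst : s = t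
    · rw [hst, adjM_self, if_pos rfl]
    · rw [if_neg hst, adjM_eq_one, h2 _ _ hst]
      trivial
  have m2 : ∀ s t : W ⊕ W, adjM G (y s) (y t) = 0 := by
    intro s t
    by_cases hst : s = t
    · rw [hst, adjM_self]
    · rw [adjM_eq_zero, h3 _ _ hst]
      exact not_false
  have m3 : ∀ u v : W, adjM G (x (Sum.inl u)) (y (Sum.inl v)) = adjM H u v := by
    intro u v
    have := h1 (Sum.inl u) (Sum.inl v)
    unfold adjM
    simp only [this]
  have m4 : ∀ u v : W, adjM G (x (Sum.inl u)) (y (Sum.inr v)) = if u = v then 1 else 0 := by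
    intro u v
    have := h1 (Sum.inl u) (Sum.inr v)
    unfold adjM
    simp only [this]
  have m5 : ∀ u v : W, adjM G (x (Sum.inr u)) (y (Sum.inl v)) = 0 := by
    intro u v
    have := h1 (Sum.inr u) (Sum.inl v)
    unfold adjM
    simp only [this, if_false]
  have m6 : ∀ u v : W, adjM G (x (Sum.inr u)) (y (Sum.inr v)) = if u = v then 1 else 0 := by
    intro u v
    have := h1 (Sum.inr u) (Sum.inr v)
    unfold adjM
    simp only [this]
  have m3' : ∀ u v : W, adjM G (y (Sum.inl v)) (x (Sum.inl u)) = adjM H u v := fun u v => by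
    rw [adjM_comm, m3]
  have m4' : ∀ u v : W, adjM G (y (Sum.inr v)) (x (Sum.inl u)) = if u = v then 1 else 0 :=
    fun u v => by rw [adjM_comm, m4]
  have m5' : ∀ u v : W, adjM G (y (Sum.inl v)) (x (Sum.inr u)) = 0 := fun u v => by
    rw [adjM_comm, m5]
  have m6' : ∀ u v : W, adjM G (y (Sum.inr v)) (x (Sum.inr u)) = if u = v then 1 else 0 :=
    fun u v => by rw [adjM_comm, m6]
  refine hasPivotMinor_of_index G H (ι := W ⊕ W)
    (fun s => match s with
      | Sum.inl u => x (Sum.inr u)
      | Sum.inr u => y (Sum.inr u)) ?_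
    (fun s t => match s, t with
      | Sum.inl _, Sum.inl _ => 0
      | Sum.inl u, Sum.inr v => if u = v then 1 else 0
      | Sum.inr u, Sum.inl v => if u = v then 1 else 0
      | Sum.inr u, Sum.inr v => if u = v then 0 else 1) ?_ ?_
    (fun w => if c w then x (Sum.inl w) else y (Sum.inl w)) ?_ ?_ ?_
  · rintro (u | u) (v | v) huv
    · exact congrArg Sum.inl (Sum.inr_injective (hx huv))
    · exact absurd huv (hxy _ _)
    · exact absurd huv.symm (hxy _ _)
    · exact congrArg Sum.inr (Sum.inr_injective (hy huv))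
  · rintro (u | u) (v | v) <;> simp [eq_comm]
  · rintro (u | u) (v | v)
    · rw [Fintype.sum_sum_type]
      simp only [m1, m2, m6, m6', mul_zero, Finset.sum_const_zero, zero_add]
      simp
    · rw [Fintype.sum_sum_type]
      simp only [m1, m2, m6, m6', Sum.inr.injEq]
      have e1 : ∀ w : W, (if u = w then (0 : ZMod 2) else 1) * (if w = v then 1 else 0) =
          if w = v then (if u = v then 0 else 1) else 0 := by
        intro w
        by_cases hwv : w = v
        · subst hwv; simp
        · simp [hwv]
      have e2 : ∀ w : W, (if u = w then (1 : ZMod 2) else 0) * (if w = v then 0 else 1) =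
          if u = w then (if u = v then 0 else 1) else 0 := by
        intro w
        by_cases hwv : u = w
        · subst hwv; simp
        · simp [hwv]
      simp only [e1, e2, Finset.sum_ite_eq', Finset.sum_ite_eq, mem_univ, if_true, reduceCtorEq,
        if_false]
      exact zmod2_add_self _
    · rw [Fintype.sum_sum_type]
      simp only [m1, m2, m6, m6', mul_zero, zero_mul, Finset.sum_const_zero, zero_add]
      simp
    · rw [Fintype.sum_sum_type]
      simp only [m1, m2, m6, m6', zero_mul, Finset.sum_const_zero, add_zero]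
      simp only [mul_ite, mul_one, mul_zero, ite_mul, zero_mul, one_mul,
        Finset.sum_ite_eq', Finset.sum_ite_eq, mem_univ, if_true, Sum.inr.injEq]
      by_cases huv : u = v
      · simp [huv]
      · simp [huv, Ne.symm huv, eq_comm]
  · intro u v huv
    by_cases hu : c u <;> by_cases hv : c v <;> simp only [hu, hv, if_true, if_false] at huv
    · exact Sum.inl_injective (hx huv)
    · exact absurd huv (hxy _ _)
    · exact absurd huv.symm (hxy _ _)
    · exact Sum.inl_injective (hy huv)
  · intro w s
    rcases s with u | u <;> by_cases hw : c w <;> simp only [hw, if_true, if_false]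
    · intro h
      exact absurd (hx h) (by simp)
    · exact (hxy _ _).symm
    · exact hxy _ _
    · intro h
      exact absurd (hy h) (by simp)
  · intro u v huv
    simp only [Fintype.sum_sum_type]
    by_cases hu : c u <;> by_cases hv : c v <;> simp only [hu, hv, if_true, if_false]
    · have hH : adjM H u v = 0 := adjM_eq_zero.2 fun h => ((hc u v h).1 hu) hv
      simp only [m1, m2, m3, m4, m5, m6, m3', m4', m5', m6', hH, Sum.inl.injEq, huv, if_false,
        mul_zero, mul_one, one_mul, zero_mul, Finset.sum_const_zero, add_zero, zero_add,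
        reduceCtorEq]
      have e1 : ∀ a b : W, (if a = b then (1 : ZMod 2) else 0) * (if v = b then 1 else 0) =
          if a = b then (if v = a then 1 else 0) else 0 := by
        intro a b
        by_cases hab : a = b
        · subst hab; simp
        · simp [hab]
      have e2 : ∀ a b : W, (if u = a then (1 : ZMod 2) else 0) * (if a = b then 1 else 0) =
          if a = b then (if u = a then 1 else 0) else 0 := by
        intro a b
        by_cases hab : a = b
        · subst hab; simp
        · simp [hab]
      have e3 : ∀ a b : W, (if u = a then (1 : ZMod 2) else 0) * (if a = b then 0 else 1) *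
          (if v = b then 1 else 0) = if u = a then (if v = b then (if a = b then 0 else 1) else 0)
            else 0 := by
        intro a b
        by_cases hab : u = a <;> by_cases hvb : v = b <;> simp [hab, hvb]
      simp only [Finset.sum_add_distrib, e1, e2, e3, Finset.sum_ite_eq', Finset.sum_ite_eq,
        mem_univ, if_true, huv, if_false]
      simp [huv]
      try decide
    · simp only [m1, m2, m3, m4, m5, m6, m3', m4', m5', m6', mul_zero, zero_mul,
        Finset.sum_const_zero, add_zero]
    · simp only [m1, m2, m3, m4, m5, m6, m3', m4', m5', m6', mul_zero, zero_mul,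
        Finset.sum_const_zero, add_zero]
      rw [adjM_comm]
    · have hH : adjM H u v = 0 := adjM_eq_zero.2 fun h => hu ((hc u v h).2 hv)
      simp only [m1, m2, m3, m4, m5, m6, m3', m4', m5', m6', mul_zero, zero_mul, hH,
        Finset.sum_const_zero, add_zero]

/-- both families are cliques -/
theorem case11 (hc : ∀ u v, H.Adj u v → (c u ↔ ¬ c v)) (G : SimpleGraph V)
    (h : Pat G True True (fun (s t : W ⊕ W) => match s, t with
      | Sum.inl u, Sum.inl v => ¬ H.Adj u v
      | Sum.inl u, Sum.inr v => u ≠ v
      | Sum.inr u, Sum.inl v => u ≠ v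
      | Sum.inr _, Sum.inr _ => True)) : HasPivotMinor G H := by
  obtain ⟨x, y, hx, hy, hxy, h1, h2, h3⟩ := h
  have m1 : ∀ s t : W ⊕ W, adjM G (x s) (x t) = if s = t then 0 else 1 := by
    intro s t
    by_cases hst : s = t
    · rw [hst, adjM_self, if_pos rfl]
    · rw [if_neg hst, adjM_eq_one, h2 _ _ hst]
      trivial
  have m2 : ∀ s t : W ⊕ W, adjM G (y s) (y t) = if s = t then 0 else 1 := by
    intro s t
    by_cases hst : s = t
    · rw [hst, adjM_self, if_pos rfl]
    · rw [if_neg hst, adjM_eq_one, h3 _ _ hst]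
      trivial
  have m3 : ∀ u v : W, adjM G (x (Sum.inl u)) (y (Sum.inl v)) = 1 + adjM H u v := by
    intro u v
    have := h1 (Sum.inl u) (Sum.inl v)
    unfold adjM
    simp only [this]
    by_cases h : H.Adj u v
    · simp [h]; decide
    · simp [h]
  have m4 : ∀ u v : W, adjM G (x (Sum.inl u)) (y (Sum.inr v)) = if u = v then 0 else 1 := by
    intro u v
    have := h1 (Sum.inl u) (Sum.inr v)
    unfold adjM
    simp only [this]
    by_cases h : u = v <;> simp [h]
  have m5 : ∀ u v : W, adjM G (x (Sum.inr u)) (y (Sum.inl v)) = if u = v then 0 else 1 := by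
    intro u v
    have := h1 (Sum.inr u) (Sum.inl v)
    unfold adjM
    simp only [this]
    by_cases h : u = v <;> simp [h]
  have m6 : ∀ u v : W, adjM G (x (Sum.inr u)) (y (Sum.inr v)) = 1 := by
    intro u v
    have := h1 (Sum.inr u) (Sum.inr v)
    unfold adjM
    simp only [this, if_true]
  have m3' : ∀ u v : W, adjM G (y (Sum.inl v)) (x (Sum.inl u)) = 1 + adjM H u v := fun u v => by
    rw [adjM_comm, m3]
  have m4' : ∀ u v : W, adjM G (y (Sum.inr v)) (x (Sum.inl u)) = if u = v then 0 else 1 :=
    fun u v => by rw [adjM_comm, m4]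
  have m5' : ∀ u v : W, adjM G (y (Sum.inl v)) (x (Sum.inr u)) = if u = v then 0 else 1 :=
    fun u v => by rw [adjM_comm, m5]
  have m6' : ∀ u v : W, adjM G (y (Sum.inr v)) (x (Sum.inr u)) = 1 :=
    fun u v => by rw [adjM_comm, m6]
  -- the general form of the entries
  let g : W ⊕ W → V := fun s => match s with
      | Sum.inl u => x (Sum.inr u)
      | Sum.inr u => y (Sum.inr u)
  have hgg : ∀ s t : W ⊕ W, adjM G (g s) (g t) = if s = t then 0 else 1 := by
    rintro (u | u) (v | v)
    · show adjM G (x (Sum.inr u)) (x (Sum.inr v)) = _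
      rw [m1]; simp
    · show adjM G (x (Sum.inr u)) (y (Sum.inr v)) = _
      rw [m6]; simp
    · show adjM G (y (Sum.inr u)) (x (Sum.inr v)) = _
      rw [m6', if_neg (by simp)]
    · show adjM G (y (Sum.inr u)) (y (Sum.inr v)) = _
      simp [m2]
  -- the private partner
  have hdel : ∀ s t : W ⊕ W, (if s = t then (0 : ZMod 2) else 1) = 1 + if s = t then 1 else 0 := by
    intro s t
    by_cases h : s = t
    · simp [h]; decide
    · simp [h]
  let f : W → V := fun w => if c w then x (Sum.inl w) else y (Sum.inl w)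
  let k : W → W ⊕ W := fun w => if c w then Sum.inr w else Sum.inl w
  have hfg : ∀ (w : W) (s : W ⊕ W), adjM G (f w) (g s) = 1 + if k w = s then 1 else 0 := by
    intro w s
    rw [← hdel]
    by_cases hw : c w
    · have e1 : f w = x (Sum.inl w) := if_pos hw
      have e2 : k w = Sum.inr w := if_pos hw
      rw [e1, e2]
      rcases s with u | u
      · show adjM G (x (Sum.inl w)) (x (Sum.inr u)) = _
        rw [m1]; simp
      · show adjM G (x (Sum.inl w)) (y (Sum.inr u)) = _
        rw [m4]; simp
    · have e1 : f w = y (Sum.inl w) := if_neg hw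
      have e2 : k w = Sum.inl w := if_neg hw
      rw [e1, e2]
      rcases s with u | u
      · show adjM G (y (Sum.inl w)) (x (Sum.inr u)) = _
        rw [m5']; simp [eq_comm]
      · show adjM G (y (Sum.inl w)) (y (Sum.inr u)) = _
        simp [m2]
  have hkinj : ∀ u v, u ≠ v → k u ≠ k v := by
    intro u v huv
    simp only [k]
    by_cases hu : c u <;> by_cases hv : c v <;> simp [hu, hv, huv]
  have htot : ∑ _s : W ⊕ W, (1 : ZMod 2) = 0 := by
    rw [Fintype.sum_sum_type]
    exact zmod2_add_self _
  have hinv : ∀ i j : W ⊕ W, ∑ t, (if i = t then (0 : ZMod 2) else 1) *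
      (if t = j then 0 else 1) = if i = j then 1 else 0 := by
    intro i j
    have e1 : ∀ t : W ⊕ W, (if i = t then (0 : ZMod 2) else 1) * (if t = j then 0 else 1) =
        1 + (if i = t then 1 else 0) + (if t = j then 1 else 0) +
          (if i = t then (if i = j then 1 else 0) else 0) := by
      intro t
      by_cases h1 : i = t
      · subst h1
        by_cases h2 : i = j
        · simp only [if_pos h2, if_true]; decide
        · simp only [if_neg h2, if_true]; decide
      · by_cases h2 : t = j
        · simp only [if_pos h2, if_neg h1]; decide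
        · simp only [if_neg h2, if_neg h1]; decide
    simp only [e1, Finset.sum_add_distrib, htot, Finset.sum_ite_eq, Finset.sum_ite_eq', mem_univ,
      if_true]
    by_cases h : i = j
    · simp only [if_pos h]; decide
    · simp only [if_neg h]; decide
  refine hasPivotMinor_of_index G H (ι := W ⊕ W) g ?_
    (fun s t => if s = t then 0 else 1) ?_ ?_ f ?_ ?_ ?_
  · rintro (u | u) (v | v) huv
    · exact congrArg Sum.inl (Sum.inr_injective (hx huv))
    · exact absurd huv (hxy _ _)
    · exact absurd huv.symm (hxy _ _)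
    · exact congrArg Sum.inr (Sum.inr_injective (hy huv))
  · intro i j
    simp only [eq_comm]
  · intro i j
    simp only [hgg]
    have := hinv i j
    convert this
  · intro u v huv
    simp only [f] at huv
    by_cases hu : c u <;> by_cases hv : c v <;> simp only [hu, hv, if_true, if_false] at huv
    · exact Sum.inl_injective (hx huv)
    · exact absurd huv (hxy _ _)
    · exact absurd huv.symm (hxy _ _)
    · exact Sum.inl_injective (hy huv)
  · intro w s
    simp only [f]
    rcases s with u | u <;> by_cases hw : c w <;> simp only [hw, if_true, if_false]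
    · intro h
      exact absurd (hx h) (by simp)
    · exact (hxy _ _).symm
    · exact hxy _ _
    · intro h
      exact absurd (hy h) (by simp)
  · intro u v huv
    -- the sum
    have e0 : ∑ i : W ⊕ W, ∑ j : W ⊕ W, adjM G (f u) (g i) * (if i = j then 0 else 1) *
        adjM G (g j) (f v) = 1 := by
      have e1 : ∀ i : W ⊕ W, ∑ j : W ⊕ W, adjM G (f u) (g i) * (if i = j then 0 else 1) *
          adjM G (g j) (f v) = if k v = i then (if k u = i then 0 else 1) else 0 := by
        intro i
        have e2 : ∀ j : W ⊕ W, adjM G (f u) (g i) * (if i = j then 0 else 1) *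
            adjM G (g j) (f v) = adjM G (f u) (g i) * ((if i = j then (0 : ZMod 2) else 1) *
              (if j = k v then 0 else 1)) := by
          intro j
          rw [adjM_comm G (g j), hfg v j, ← hdel, mul_assoc]
          congr 2
          simp only [eq_comm]
        simp only [e2]
        rw [← Finset.mul_sum, hinv, hfg u i, ← hdel]
        by_cases h : k v = i
        · subst h; simp
        · rw [if_neg h, if_neg (Ne.symm h), mul_zero]
      have e3 : ∑ i : W ⊕ W, (if k v = i then (if k u = i then (0 : ZMod 2) else 1) else 0) = 1 := by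
        rw [Finset.sum_ite_eq, if_pos (mem_univ _), if_neg (hkinj u v huv)]
      exact (Finset.sum_congr rfl fun i _ => e1 i).trans e3
    rw [e0]
    simp only [f]
    by_cases hu : c u <;> by_cases hv : c v <;> simp only [hu, hv, if_true, if_false]
    · have hH : adjM H u v = 0 := adjM_eq_zero.2 fun h => ((hc u v h).1 hu) hv
      rw [hH, m1, if_neg (fun h => huv (Sum.inl_injective h))]
      decide
    · rw [m3, add_right_comm, zmod2_add_self, zero_add]
    · rw [m3', add_right_comm, zmod2_add_self, zero_add, adjM_comm]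
    · have hH : adjM H u v = 0 := adjM_eq_zero.2 fun h => hu ((hc u v h).2 hv)
      rw [hH, m2, if_neg (fun h => huv (Sum.inl_injective h))]
      decide

end Cases

/-- **Large VC dimension.** If every subset of a set `X` of at least `d(H)` vertices is the trace of
the neighbourhood of a vertex outside of `X`, then the bipartite graph `H` is a pivot-minor. -/
theorem exists_vc (W : Type) [Fintype W] (H : SimpleGraph W) (hH : H.Colorable 2) :
    ∃ d : ℕ, ∀ (V : Type) (G : SimpleGraph V) (X : Finset V), d ≤ X.card →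
      (∀ S ⊆ X, ∃ y, y ∉ X ∧ ∀ x ∈ X, (G.Adj y x ↔ x ∈ S)) → HasPivotMinor G H := by
  obtain ⟨C⟩ := hH
  set c : W → Prop := fun w => C w = 0 with hcdef
  have hc : ∀ u v, H.Adj u v → (c u ↔ ¬ c v) := by
    intro u v huv
    have := C.valid huv
    simp only [hcdef]
    revert this
    generalize C u = a
    generalize C v = b
    revert a b
    decide
  obtain ⟨d, hd⟩ := exists_univ (4 * Fintype.card W)
  refine ⟨d, fun V G X hX hsh => ?_⟩
  obtain ⟨a, b, hU⟩ := hd V G X hX hsh
  have hq1 : Fintype.card W + Fintype.card W ≤ 4 * Fintype.card W := by omega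
  have hq2 : Fintype.card (W ⊕ W) + Fintype.card (W ⊕ W) ≤ 4 * Fintype.card W := by
    rw [Fintype.card_sum]; omega
  by_cases ha : a <;> by_cases hb : b <;> simp only [ha, hb] at hU
  · exact case11 H c hc G (pat_of_univ hU hq2 _)
  · exact case10 H c hc G (pat_of_univ hU hq2 _)
  · refine case10 H c hc G (Pat.swap (pat_of_univ hU hq2 fun (t s : W ⊕ W) => match s, t with
      | Sum.inl u, Sum.inl v => H.Adj u v
      | Sum.inl u, Sum.inr v => u = v
      | Sum.inr _, Sum.inl _ => False
      | Sum.inr u, Sum.inr v => u = v))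
  · exact case00 H c hc G (pat_of_univ hU hq1 _)

/-- the same without the condition that the vertices are outside of `X` -/
theorem exists_vc' (W : Type) [Fintype W] (H : SimpleGraph W) (hH : H.Colorable 2) :
    ∃ d : ℕ, ∀ (V : Type) (G : SimpleGraph V) (X : Finset V), d ≤ X.card →
      (∀ S ⊆ X, ∃ y, ∀ x ∈ X, (G.Adj y x ↔ x ∈ S)) → HasPivotMinor G H := by
  obtain ⟨d, hd⟩ := exists_vc W H hH
  refine ⟨2 * d, fun V G X hX hsh => ?_⟩
  obtain ⟨X1, hX1, hc1⟩ := Finset.exists_subset_card_eq (show d ≤ X.card by omega)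
  have hc2 : d ≤ (X \ X1).card := by
    rw [Finset.card_sdiff_of_subset hX1]
    omega
  refine hd V G X1 hc1.ge fun S hS => ?_
  by_contra hcon
  push Not at hcon
  haveI : Nonempty V := ⟨(hsh ∅ (empty_subset _)).choose⟩
  choose! y hy using hsh
  have hmem : ∀ T ∈ (X \ X1).powerset, y (S ∪ T) ∈ X1 := by
    intro T hT
    by_contra hnot
    rw [mem_powerset] at hT
    have hsub : S ∪ T ⊆ X := union_subset (hS.trans hX1) (hT.trans sdiff_subset)
    obtain ⟨x, hx, hx2⟩ := hcon _ hnot
    have h1 := hy (S ∪ T) hsub x (hX1 hx)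
    have h2 : x ∈ S ∪ T ↔ x ∈ S := by
      rw [mem_union]
      refine ⟨fun h => h.resolve_right fun h => ?_, Or.inl⟩
      exact (mem_sdiff.1 (hT h)).2 hx
    rw [h2] at h1
    rcases hx2 with ⟨h3, h4⟩ | ⟨h3, h4⟩
    · exact h4 (h1.1 h3)
    · exact h3 (h1.2 h4)
  have hinj : Set.InjOn (fun T => y (S ∪ T)) ((X \ X1).powerset : Finset (Finset V)) := by
    intro T hT T' hT' h
    rw [mem_coe, mem_powerset] at hT hT'
    have key : ∀ T ⊆ X \ X1, ∀ x ∈ X \ X1, (x ∈ T ↔ G.Adj (y (S ∪ T)) x) := by
      intro T hT x hx
      have hsub : S ∪ T ⊆ X := union_subset (hS.trans hX1) (hT.trans sdiff_subset)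
      rw [hy (S ∪ T) hsub x (mem_sdiff.1 hx).1, mem_union]
      refine ⟨Or.inr, fun h => h.resolve_left fun h => ?_⟩
      exact (mem_sdiff.1 hx).2 (hS h)
    ext x
    constructor
    · intro hx
      rw [key T' hT' x (hT hx), ← show y (S ∪ T) = y (S ∪ T') from h, ← key T hT x (hT hx)]
      exact hx
    · intro hx
      rw [key T hT x (hT' hx), show y (S ∪ T) = y (S ∪ T') from h, ← key T' hT' x (hT' hx)]
      exact hx
  have h3 := Finset.card_le_card_of_injOn _ hmem hinj
  rw [card_powerset, hc1] at h3
  have h4 : d < 2 ^ d := Nat.lt_two_pow_self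
  have h5 : 2 ^ d ≤ 2 ^ (X \ X1).card := Nat.pow_le_pow_right (by norm_num) hc2
  omega

end Pool.Agent.Helper68.Piv
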