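import Pool.Agent.Helper68.Piv.Pack

/-!
# Homogeneous pairs in relations of bounded VC dimension
-/

set_option autoImplicit false

open Finset
open scoped Classical

namespace Pool.Agent.Helper68.Piv

/-- the indicator of a relation -/
noncomputable def ind {α β : Type*} (R : α → β → Prop) (u : α) (w : β) : ℝ := if R u w then 1 else 0

/-- the number of related pairs -/
noncomputable def eR {α β : Type*} (R : α → β → Prop) (A : Finset α) (B : Finset β) : ℝ :=
  ∑ u ∈ A, ∑ w ∈ B, ind R u w

/-- the number of unrelated pairs -/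
noncomputable def nR {α β : Type*} (R : α → β → Prop) (A : Finset α) (B : Finset β) : ℝ :=
  ∑ u ∈ A, ∑ w ∈ B, (1 - ind R u w)

section Basic

variable {α β : Type*} (R : α → β → Prop)

theorem ind_cases (u : α) (w : β) : ind R u w = 0 ∨ ind R u w = 1 := by
  unfold ind
  split_ifs
  · exact Or.inr rfl
  · exact Or.inl rfl

theorem ind_nonneg (u : α) (w : β) : 0 ≤ ind R u w := by
  rcases ind_cases R u w with h | h <;> rw [h]
  exact zero_le_one

theorem ind_le_one (u : α) (w : β) : ind R u w ≤ 1 := by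
  rcases ind_cases R u w with h | h <;> rw [h]
  exact zero_le_one

theorem eR_nonneg (A : Finset α) (B : Finset β) : 0 ≤ eR R A B :=
  sum_nonneg fun _ _ => sum_nonneg fun _ _ => ind_nonneg R _ _

theorem nR_nonneg (A : Finset α) (B : Finset β) : 0 ≤ nR R A B :=
  sum_nonneg fun _ _ => sum_nonneg fun _ _ => by linarith [ind_le_one R ‹_› ‹_›]

theorem eR_add_nR (A : Finset α) (B : Finset β) : eR R A B + nR R A B = A.card * B.card := by
  unfold eR nR
  rw [← sum_add_distrib]
  simp only [← sum_add_distrib, add_sub_cancel]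
  simp

theorem eR_le (A : Finset α) (B : Finset β) : eR R A B ≤ A.card * B.card := by
  have := eR_add_nR R A B
  have := nR_nonneg R A B
  linarith

theorem rdist_comm (W : Finset β) (u v : α) : rdist R W u v = rdist R W v u := by
  unfold rdist
  congr 1
  ext w
  simp only [mem_filter]
  tauto

theorem rdist_self (W : Finset β) (u : α) : rdist R W u u = 0 := by
  unfold rdist
  simp

theorem rdist_triangle (W : Finset β) (u v w : α) :
    rdist R W u w ≤ rdist R W u v + rdist R W v w := by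
  unfold rdist
  refine (card_le_card ?_).trans (card_union_le _ _)
  intro x
  simp only [mem_filter, mem_union]
  tauto

theorem sum_ind_le_rdist (W : Finset β) (u v : α) :
    ∑ w ∈ W, ind R u w * (1 - ind R v w) ≤ rdist R W u v := by
  unfold rdist
  rw [card_filter]
  push_cast
  refine sum_le_sum fun w _ => ?_
  unfold ind
  by_cases h1 : R u w <;> by_cases h2 : R v w <;> simp [h1, h2]

theorem ShR.mono {R : α → β → Prop} {U U' : Finset α} {W : Finset β} {d : ℕ} (h : ShR R U W d)
    (hU : U ⊆ U') : ShR R U' W d := by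
  obtain ⟨X, hX, hd, hS⟩ := h
  exact ⟨X, hX, hd, fun S hSX => by
    obtain ⟨u, hu, h⟩ := hS S hSX
    exact ⟨u, hU hu, h⟩⟩

end Basic

/-- separated families of rows -/
def Sep {α β : Type*} (R : α → β → Prop) (W : Finset β) (δ : ℝ) (P : Finset α) : Prop :=
  ∀ x ∈ P, ∀ y ∈ P, x ≠ y → δ * W.card ≤ rdist R W x y

/-- **Clusters.** -/
theorem exists_cluster (d : ℕ) (δ : ℝ) (hδ : 0 < δ) : ∃ K : ℕ, ∀ (α β : Type)
    (R : α → β → Prop) (U : Finset α) (W : Finset β), W.Nonempty → ¬ ShR R U W d →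
    ∃ φ : α → α, (∀ u ∈ U, φ u ∈ U ∧ (rdist R W u (φ u) : ℝ) ≤ δ * W.card) ∧
      (U.image φ).card ≤ K := by
  obtain ⟨K, hK⟩ := exists_pack d δ hδ
  refine ⟨K, fun α β R U W hW hsh => ?_⟩
  have hWpos : (0 : ℝ) < W.card := by exact_mod_cast hW.card_pos
  obtain ⟨P, hP, hmax⟩ := exists_max_image
    (U.powerset.filter fun P => Sep R W δ P) card
    ⟨∅, by
      rw [mem_filter]
      exact ⟨empty_mem_powerset _, fun x hx => absurd hx (notMem_empty x)⟩⟩
  rw [mem_filter, mem_powerset] at hP
  have hPK : P.card < K := by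
    by_contra hlt
    push Not at hlt
    exact hsh ((hK α β R P W hW hlt hP.2).mono hP.1)
  have hex : ∀ u ∈ U, ∃ p ∈ P, (rdist R W u p : ℝ) ≤ δ * W.card := by
    intro u hu
    by_cases huP : u ∈ P
    · exact ⟨u, huP, by rw [rdist_self, Nat.cast_zero]; positivity⟩
    · by_contra hcon
      push Not at hcon
      have h1 := hmax (insert u P) (by
        rw [mem_filter, mem_powerset]
        refine ⟨insert_subset hu hP.1, ?_⟩
        intro x hx y hy hxy
        rcases mem_insert.1 hx with hx | hx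
        · rcases mem_insert.1 hy with hy | hy
          · exact absurd (hx.trans hy.symm) hxy
          · rw [hx]; exact (hcon y hy).le
        · rcases mem_insert.1 hy with hy | hy
          · rw [hy, rdist_comm]; exact (hcon x hx).le
          · exact hP.2 x hx y hy hxy)
      rw [card_insert_of_notMem huP] at h1
      omega
  choose! φ hφ using hex
  refine ⟨φ, fun u hu => ⟨hP.1 (hφ u hu).1, (hφ u hu).2⟩, ?_⟩
  refine (card_le_card ?_).trans hPK.le
  intro p hp
  obtain ⟨u, hu, rfl⟩ := mem_image.1 hp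
  exact (hφ u hu).1

section Count

variable {α β : Type*} (R : α → β → Prop)

theorem mul_le_disagree (A : Finset α) (B : Finset β) :
    eR R A B * nR R A B ≤
      B.card * ∑ u ∈ A, ∑ u' ∈ A, ∑ w ∈ B, ind R u w * (1 - ind R u' w) +
      A.card * ∑ w ∈ B, ∑ w' ∈ B, ∑ u ∈ A, ind R u w * (1 - ind R u w') := by
  have h0 : ∀ (u u' : α) (w w' : β), ind R u w * (1 - ind R u' w') ≤
      ind R u w * (1 - ind R u' w) + ind R u' w * (1 - ind R u' w') := by
    intro u u' w w'
    rcases ind_cases R u w with h1 | h1 <;> rcases ind_cases R u' w' with h2 | h2 <;>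
      rcases ind_cases R u' w with h3 | h3 <;> rw [h1, h2, h3] <;> norm_num
  have h1 : eR R A B * nR R A B =
      ∑ u ∈ A, ∑ w ∈ B, ∑ u' ∈ A, ∑ w' ∈ B, ind R u w * (1 - ind R u' w') := by
    unfold eR nR
    rw [sum_mul]
    refine sum_congr rfl fun u _ => ?_
    rw [sum_mul]
    refine sum_congr rfl fun w _ => ?_
    rw [mul_sum]
    refine sum_congr rfl fun u' _ => ?_
    rw [mul_sum]
  rw [h1]
  calc ∑ u ∈ A, ∑ w ∈ B, ∑ u' ∈ A, ∑ w' ∈ B, ind R u w * (1 - ind R u' w')
      ≤ ∑ u ∈ A, ∑ w ∈ B, ∑ u' ∈ A, ∑ w' ∈ B,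
        (ind R u w * (1 - ind R u' w) + ind R u' w * (1 - ind R u' w')) :=
        sum_le_sum fun u _ => sum_le_sum fun w _ => sum_le_sum fun u' _ =>
          sum_le_sum fun w' _ => h0 u u' w w'
    _ = (∑ u ∈ A, ∑ w ∈ B, ∑ u' ∈ A, ∑ w' ∈ B, ind R u w * (1 - ind R u' w)) +
        ∑ u ∈ A, ∑ w ∈ B, ∑ u' ∈ A, ∑ w' ∈ B, ind R u' w * (1 - ind R u' w') := by
        simp only [sum_add_distrib]
    _ = _ := by
        congr 1
        · simp only [sum_const, nsmul_eq_mul, mul_sum]
          refine sum_congr rfl fun u _ => ?_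
          rw [sum_comm]
        · rw [sum_const, nsmul_eq_mul]
          congr 1
          refine sum_congr rfl fun w _ => ?_
          rw [sum_comm]

/-- sums over the fibres of a map -/
theorem sum_fiber' {γ : Type*} (A : Finset α) (φ : α → γ) (f : α → ℝ) :
    ∑ p ∈ A.image φ, ∑ u ∈ A.filter (fun u => φ u = p), f u = ∑ u ∈ A, f u :=
  sum_fiberwise_of_maps_to (fun _ hu => mem_image_of_mem φ hu) f

end Count

/-- **Homogeneous pair, dense form.** -/
theorem exists_dense_pair (d : ℕ) (η δ : ℝ) (hη : 0 < η) (hδ : 0 < δ) :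
    ∃ c : ℝ, 0 < c ∧ c ≤ 1 ∧ ∀ (α β : Type) (R : α → β → Prop) (U : Finset α) (W : Finset β),
      U.Nonempty → W.Nonempty → ¬ ShR R U W d → ¬ ShR (fun w u => R u w) W U d →
      η * (U.card * W.card) ≤ eR R U W →
      ∃ A ⊆ U, ∃ B ⊆ W, c * U.card ≤ A.card ∧ c * W.card ≤ B.card ∧
        nR R A B ≤ δ * (A.card * B.card) := by
  set δ0 : ℝ := η * δ / 16 with hδ0
  have hδ0pos : 0 < δ0 := by positivity
  obtain ⟨K, hK⟩ := exists_cluster d δ0 hδ0pos
  set c : ℝ := min (η / (8 * (K + 1))) 1 with hc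
  have hc0 : 0 < c := lt_min (by positivity) zero_lt_one
  refine ⟨c, hc0, min_le_right _ _, fun α β R U W hU hW hsh hsh' he => ?_⟩
  have hUpos : (0 : ℝ) < U.card := by exact_mod_cast hU.card_pos
  have hWpos : (0 : ℝ) < W.card := by exact_mod_cast hW.card_pos
  obtain ⟨φ, hφ, hφK⟩ := hK α β R U W hW hsh
  obtain ⟨ψ, hψ, hψK⟩ := hK β α (fun w u => R u w) W U hU hsh'
  by_contra hcon
  push Not at hcon
  set Up : α → Finset α := fun p => U.filter fun u => φ u = p with hUp
  set Wq : β → Finset β := fun q => W.filter fun w => ψ w = q with hWq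
  have hUp1 : ∀ p, Up p ⊆ U := fun p => filter_subset _ _
  have hWq1 : ∀ q, Wq q ⊆ W := fun q => filter_subset _ _
  have hUp2 : ∀ p ∈ U.image φ, (0 : ℝ) < (Up p).card := by
    intro p hp
    obtain ⟨u, hu, hup⟩ := mem_image.1 hp
    have hmem : u ∈ Up p := mem_filter.2 ⟨hu, hup⟩
    exact_mod_cast card_pos.2 ⟨u, hmem⟩
  have hWq2 : ∀ q ∈ W.image ψ, (0 : ℝ) < (Wq q).card := by
    intro q hq
    obtain ⟨w, hw, hwq⟩ := mem_image.1 hq
    have hmem : w ∈ Wq q := mem_filter.2 ⟨hw, hwq⟩
    exact_mod_cast card_pos.2 ⟨w, hmem⟩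
  -- disagreements inside the clusters
  have hX : ∀ p, ∑ u ∈ Up p, ∑ u' ∈ Up p, ∑ w ∈ W, ind R u w * (1 - ind R u' w) ≤
      (Up p).card * ((Up p).card * (2 * δ0 * W.card)) := by
    intro p
    have h1 : ∀ u ∈ Up p, ∀ u' ∈ Up p, ∑ w ∈ W, ind R u w * (1 - ind R u' w) ≤
        2 * δ0 * W.card := by
      intro u hu u' hu'
      have h2 := sum_ind_le_rdist R W u u'
      have h3 : (rdist R W u u' : ℝ) ≤ rdist R W u p + rdist R W p u' := by
        exact_mod_cast rdist_triangle R W u p u'
      rw [rdist_comm R W p u'] at h3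
      have h4 := (hφ u (mem_filter.1 hu).1).2
      have h5 := (hφ u' (mem_filter.1 hu').1).2
      rw [(mem_filter.1 hu).2] at h4
      rw [(mem_filter.1 hu').2] at h5
      linarith
    calc _ ≤ ∑ u ∈ Up p, ∑ u' ∈ Up p, 2 * δ0 * (W.card : ℝ) :=
          sum_le_sum fun u hu => sum_le_sum fun u' hu' => h1 u hu u' hu'
      _ = _ := by simp only [sum_const, nsmul_eq_mul]
  have hY : ∀ q, ∑ w ∈ Wq q, ∑ w' ∈ Wq q, ∑ u ∈ U, ind R u w * (1 - ind R u w') ≤
      (Wq q).card * ((Wq q).card * (2 * δ0 * U.card)) := by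
    intro q
    have h1 : ∀ w ∈ Wq q, ∀ w' ∈ Wq q, ∑ u ∈ U, ind R u w * (1 - ind R u w') ≤
        2 * δ0 * U.card := by
      intro w hw w' hw'
      have h2 := sum_ind_le_rdist (fun w u => R u w) U w w'
      have h3 : (rdist (fun w u => R u w) U w w' : ℝ) ≤ rdist (fun w u => R u w) U w q +
          rdist (fun w u => R u w) U q w' := by
        exact_mod_cast rdist_triangle (fun w u => R u w) U w q w'
      rw [rdist_comm (fun w u => R u w) U q w'] at h3
      have h4 := (hψ w (mem_filter.1 hw).1).2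
      have h5 := (hψ w' (mem_filter.1 hw').1).2
      rw [(mem_filter.1 hw).2] at h4
      rw [(mem_filter.1 hw').2] at h5
      have h6 : ∑ u ∈ U, ind R u w * (1 - ind R u w') =
          ∑ u ∈ U, ind (fun w u => R u w) w u * (1 - ind (fun w u => R u w) w' u) := rfl
      rw [h6]
      linarith
    calc _ ≤ ∑ w ∈ Wq q, ∑ w' ∈ Wq q, 2 * δ0 * (U.card : ℝ) :=
          sum_le_sum fun u hu => sum_le_sum fun u' hu' => h1 u hu u' hu'
      _ = _ := by simp only [sum_const, nsmul_eq_mul]
  -- the estimate for one pair of clusters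
  have hpair : ∀ p ∈ U.image φ, ∀ q ∈ W.image ψ, eR R (Up p) (Wq q) ≤
      1 / δ * ((1 / (Up p).card) * (∑ u ∈ Up p, ∑ u' ∈ Up p, ∑ w ∈ Wq q,
          ind R u w * (1 - ind R u' w)) +
        (1 / (Wq q).card) * ∑ w ∈ Wq q, ∑ w' ∈ Wq q, ∑ u ∈ Up p,
          ind R u w * (1 - ind R u w')) + c * U.card * (Wq q).card + c * W.card * (Up p).card := by
    intro p hp q hq
    have hp0 := hUp2 p hp
    have hq0 := hWq2 q hq
    have hm := mul_le_disagree R (Up p) (Wq q)
    set S1 := ∑ u ∈ Up p, ∑ u' ∈ Up p, ∑ w ∈ Wq q, ind R u w * (1 - ind R u' w)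
    set S2 := ∑ w ∈ Wq q, ∑ w' ∈ Wq q, ∑ u ∈ Up p, ind R u w * (1 - ind R u w')
    have hS1 : 0 ≤ S1 := sum_nonneg fun u _ => sum_nonneg fun u' _ => sum_nonneg fun w _ =>
      mul_nonneg (ind_nonneg R _ _) (by linarith [ind_le_one R u' w])
    have hS2 : 0 ≤ S2 := sum_nonneg fun w _ => sum_nonneg fun w' _ => sum_nonneg fun u _ =>
      mul_nonneg (ind_nonneg R _ _) (by linarith [ind_le_one R u w'])
    have hle := eR_le R (Up p) (Wq q)
    have hnn : 0 ≤ 1 / δ * ((1 / (Up p).card) * S1 + (1 / (Wq q).card) * S2) := by positivity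
    by_cases h1 : c * U.card ≤ (Up p).card
    · by_cases h2 : c * W.card ≤ (Wq q).card
      · have h3 := hcon (Up p) (hUp1 p) (Wq q) (hWq1 q) h1 h2
        have h4 : eR R (Up p) (Wq q) * (δ * ((Up p).card * (Wq q).card)) ≤
            (Wq q).card * S1 + (Up p).card * S2 :=
          (mul_le_mul_of_nonneg_left h3.le (eR_nonneg R _ _)).trans hm
        have h5 : eR R (Up p) (Wq q) ≤
            1 / δ * ((1 / (Up p).card) * S1 + (1 / (Wq q).card) * S2) := by
          have h6 : 1 / δ * ((1 / (Up p).card) * S1 + (1 / (Wq q).card) * S2) =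
              ((Wq q).card * S1 + (Up p).card * S2) / (δ * ((Up p).card * (Wq q).card)) := by
            field_simp
          rw [h6, le_div_iff₀ (by positivity)]
          exact h4
        have h7 : 0 ≤ c * U.card * (Wq q).card := by positivity
        have h8 : 0 ≤ c * W.card * (Up p).card := by positivity
        linarith
      · push Not at h2
        have h3 : ((Up p).card : ℝ) * (Wq q).card ≤ (Up p).card * (c * W.card) :=
          mul_le_mul_of_nonneg_left h2.le hp0.le
        have h7 : 0 ≤ c * U.card * (Wq q).card := by positivity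
        nlinarith
    · push Not at h1
      have h3 : ((Up p).card : ℝ) * (Wq q).card ≤ (c * U.card) * (Wq q).card :=
        mul_le_mul_of_nonneg_right h1.le hq0.le
      have h8 : 0 ≤ c * W.card * (Up p).card := by positivity
      linarith
  -- summation
  have hcardU : ∑ p ∈ U.image φ, ((Up p).card : ℝ) = U.card := by
    have := sum_fiber' U φ (fun _ => (1 : ℝ))
    simpa [hUp] using this
  have hcardW : ∑ q ∈ W.image ψ, ((Wq q).card : ℝ) = W.card := by
    have := sum_fiber' W ψ (fun _ => (1 : ℝ))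
    simpa [hWq] using this
  have htot : eR R U W = ∑ p ∈ U.image φ, ∑ q ∈ W.image ψ, eR R (Up p) (Wq q) := by
    have h1 : ∀ p ∈ U.image φ, ∑ q ∈ W.image ψ, eR R (Up p) (Wq q) =
        ∑ u ∈ Up p, ∑ w ∈ W, ind R u w := by
      intro p _
      unfold eR
      rw [sum_comm]
      exact sum_congr rfl fun u _ => sum_fiber' W ψ _
    rw [sum_congr rfl h1]
    exact (sum_fiber' U φ fun u => ∑ w ∈ W, ind R u w).symm
  have hsum := sum_le_sum fun p hp => sum_le_sum fun q hq => hpair p hp q hq
  rw [← htot] at hsum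
  simp only [sum_add_distrib, ← mul_sum, mul_add] at hsum
  have e1 : ∑ p ∈ U.image φ, ∑ q ∈ W.image ψ, (1 / (Up p).card : ℝ) * (∑ u ∈ Up p,
      ∑ u' ∈ Up p, ∑ w ∈ Wq q, ind R u w * (1 - ind R u' w)) ≤ 2 * δ0 * W.card * U.card := by
    calc _ = ∑ p ∈ U.image φ, (1 / (Up p).card : ℝ) * (∑ u ∈ Up p,
          ∑ u' ∈ Up p, ∑ w ∈ W, ind R u w * (1 - ind R u' w)) := by
          refine sum_congr rfl fun p _ => ?_
          rw [← mul_sum]
          congr 1
          rw [sum_comm]
          refine sum_congr rfl fun u _ => ?_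
          rw [sum_comm]
          refine sum_congr rfl fun u' _ => ?_
          exact sum_fiber' W ψ _
      _ ≤ ∑ p ∈ U.image φ, (1 / (Up p).card : ℝ) * ((Up p).card * ((Up p).card *
          (2 * δ0 * W.card))) := by
          refine sum_le_sum fun p _ => mul_le_mul_of_nonneg_left (hX p) (by positivity)
      _ = ∑ p ∈ U.image φ, (Up p).card * (2 * δ0 * W.card) := by
          refine sum_congr rfl fun p hp => ?_
          have := hUp2 p hp
          field_simp
      _ = 2 * δ0 * W.card * U.card := by rw [← sum_mul, hcardU]; ring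
  have e2 : ∑ p ∈ U.image φ, ∑ q ∈ W.image ψ, (1 / (Wq q).card : ℝ) * (∑ w ∈ Wq q,
      ∑ w' ∈ Wq q, ∑ u ∈ Up p, ind R u w * (1 - ind R u w')) ≤ 2 * δ0 * U.card * W.card := by
    rw [sum_comm]
    calc _ = ∑ q ∈ W.image ψ, (1 / (Wq q).card : ℝ) * (∑ w ∈ Wq q,
          ∑ w' ∈ Wq q, ∑ u ∈ U, ind R u w * (1 - ind R u w')) := by
          refine sum_congr rfl fun p _ => ?_
          rw [← mul_sum]
          congr 1
          rw [sum_comm]
          refine sum_congr rfl fun u _ => ?_
          rw [sum_comm]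
          refine sum_congr rfl fun u' _ => ?_
          exact sum_fiber' U φ _
      _ ≤ ∑ q ∈ W.image ψ, (1 / (Wq q).card : ℝ) * ((Wq q).card * ((Wq q).card *
          (2 * δ0 * U.card))) := by
          refine sum_le_sum fun p _ => mul_le_mul_of_nonneg_left (hY p) (by positivity)
      _ = ∑ q ∈ W.image ψ, (Wq q).card * (2 * δ0 * U.card) := by
          refine sum_congr rfl fun p hp => ?_
          have := hWq2 p hp
          field_simp
      _ = 2 * δ0 * U.card * W.card := by rw [← sum_mul, hcardW]; ring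
  simp only [← mul_sum] at e1
  have e3 : ∑ _i ∈ U.image φ, ∑ i ∈ W.image ψ, ((Wq i).card : ℝ) ≤ K * W.card := by
    rw [hcardW, sum_const, nsmul_eq_mul]
    exact mul_le_mul_of_nonneg_right (by exact_mod_cast hφK) hWpos.le
  have e4 : ∑ i ∈ U.image φ, ∑ _j ∈ W.image ψ, ((Up i).card : ℝ) ≤ K * U.card := by
    rw [sum_comm, hcardU, sum_const, nsmul_eq_mul]
    exact mul_le_mul_of_nonneg_right (by exact_mod_cast hψK) hUpos.le
  have f1 := mul_le_mul_of_nonneg_left e1 (show (0 : ℝ) ≤ 1 / δ by positivity)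
  have f2 := mul_le_mul_of_nonneg_left e2 (show (0 : ℝ) ≤ 1 / δ by positivity)
  have f3 := mul_le_mul_of_nonneg_left e3 (show (0 : ℝ) ≤ c * U.card by positivity)
  have f4 := mul_le_mul_of_nonneg_left e4 (show (0 : ℝ) ≤ c * W.card by positivity)
  have f5 : η * (U.card * W.card) ≤ 1 / δ * (2 * δ0 * W.card * U.card) +
      1 / δ * (2 * δ0 * U.card * W.card) + c * U.card * (K * W.card) +
      c * W.card * (K * U.card) := by linarith
  have f6 : 1 / δ * (2 * δ0 * W.card * U.card) = η / 8 * (U.card * W.card) := by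
    rw [hδ0]; field_simp; ring
  have f7 : 1 / δ * (2 * δ0 * U.card * W.card) = η / 8 * (U.card * W.card) := by
    rw [hδ0]; field_simp; ring
  rw [f6, f7] at f5
  have f8 : c * K ≤ η / 8 := by
    have h1 : c ≤ η / (8 * (K + 1)) := min_le_left _ _
    calc c * K ≤ η / (8 * (K + 1)) * (K + 1) :=
          mul_le_mul h1 (by linarith) (by positivity) (by positivity)
      _ = η / 8 := by field_simp
  have hX0 : (0 : ℝ) < U.card * W.card := by positivity
  have f9 : c * U.card * (K * W.card) + c * W.card * (K * U.card) =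
      2 * (c * K) * (U.card * W.card) := by ring
  nlinarith

end Pool.Agent.Helper68.Piv
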