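import Mathlib

/-!
# A weak form of Haussler's packing lemma

If the rows of a relation do not shatter a set of `d` columns, then the number of rows with
pairwise distances at least `δ |W|` is bounded in terms of `d` and `δ`.
-/

set_option autoImplicit false

open Finset
open scoped Classical

namespace Pool.Agent.Helper68.Piv

/-- the rows `U` of the relation `R` shatter a subset of `W` with at least `d` elements -/
def ShR {α β : Type*} (R : α → β → Prop) (U : Finset α) (W : Finset β) (d : ℕ) : Prop :=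
  ∃ X ⊆ W, d ≤ X.card ∧ ∀ S ⊆ X, ∃ u ∈ U, ∀ x ∈ X, (R u x ↔ x ∈ S)

/-- the number of columns in which two rows differ -/
noncomputable def rdist {α β : Type*} (R : α → β → Prop) (W : Finset β) (u v : α) : ℕ :=
  (W.filter fun w => ¬ (R u w ↔ R v w)).card

theorem exists_length (d : ℕ) (r : ℝ) (h0 : 0 ≤ r) (h1 : r < 1) :
    ∃ n : ℕ, 1 ≤ n ∧ (((d + 1) * n ^ d : ℕ) : ℝ) ^ 2 * r ^ n < 1 := by
  have h := (tendsto_pow_const_mul_const_pow_of_abs_lt_one (2 * d)
    (show |r| < 1 by rw [abs_of_nonneg h0]; exact h1)).const_mul (((d + 1 : ℕ) : ℝ) ^ 2)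
  rw [mul_zero] at h
  have h2 := h.eventually (gt_mem_nhds (show (0 : ℝ) < 1 by norm_num))
  obtain ⟨n, hn, hn1⟩ := (h2.and (Filter.eventually_ge_atTop 1)).exists
  refine ⟨n, hn1, ?_⟩
  have e : (((d + 1) * n ^ d : ℕ) : ℝ) ^ 2 * r ^ n =
      ((d + 1 : ℕ) : ℝ) ^ 2 * ((n : ℝ) ^ (2 * d) * r ^ n) := by
    push_cast
    rw [mul_pow, ← pow_mul, mul_comm d 2]
    ring
  rw [e]
  exact hn

theorem exists_pack (d : ℕ) (δ : ℝ) (hδ : 0 < δ) : ∃ K : ℕ, ∀ (α β : Type) (R : α → β → Prop)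
    (P : Finset α) (W : Finset β), W.Nonempty → K ≤ P.card →
    (∀ x ∈ P, ∀ y ∈ P, x ≠ y → δ * W.card ≤ rdist R W x y) → ShR R P W d := by
  set r : ℝ := max (1 - δ) 0 with hr
  have hr0 : 0 ≤ r := le_max_right _ _
  have hr1 : r < 1 := max_lt (by linarith) (by norm_num)
  obtain ⟨n, hn1, hn⟩ := exists_length d r hr0 hr1
  refine ⟨(d + 1) * n ^ d, fun α β R P W hW hP hsep => ?_⟩
  set K := (d + 1) * n ^ d with hK
  obtain ⟨P', hP', hP'c⟩ := Finset.exists_subset_card_eq hP
  have hWpos : (0 : ℝ) < W.card := by exact_mod_cast hW.card_pos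
  -- a good tuple
  obtain ⟨t, htW, ht⟩ : ∃ t : Fin n → β, (∀ i, t i ∈ W) ∧
      ∀ x ∈ P', ∀ y ∈ P', x ≠ y → ∃ i, ¬ (R x (t i) ↔ R y (t i)) := by
    by_contra hcon
    push Not at hcon
    have hcov : Fintype.piFinset (fun _ : Fin n => W) ⊆
        (P'.offDiag).biUnion fun q => Fintype.piFinset fun _ : Fin n =>
          W.filter fun w => (R q.1 w ↔ R q.2 w) := by
      intro t ht
      rw [Fintype.mem_piFinset] at ht
      obtain ⟨x, hx, y, hy, hxy, hi⟩ := hcon t ht
      rw [mem_biUnion]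
      refine ⟨(x, y), mem_offDiag.2 ⟨hx, hy, hxy⟩, ?_⟩
      rw [Fintype.mem_piFinset]
      intro i
      exact mem_filter.2 ⟨ht i, hi i⟩
    have h1 := (card_le_card hcov).trans card_biUnion_le
    rw [Fintype.card_piFinset_const] at h1
    have h2 : ∀ q ∈ P'.offDiag, ((Fintype.piFinset fun _ : Fin n =>
        W.filter fun w => (R q.1 w ↔ R q.2 w)).card : ℝ) ≤ (r * W.card) ^ n := by
      intro q hq
      rw [mem_offDiag] at hq
      rw [Fintype.card_piFinset_const]
      push_cast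
      refine pow_le_pow_left₀ (by positivity) ?_ _
      have h3 := hsep q.1 (hP' hq.1) q.2 (hP' hq.2.1) hq.2.2
      have h4 := card_filter_add_card_filter_not (s := W) (fun w => (R q.1 w ↔ R q.2 w))
      have h5 : ((W.filter fun w => (R q.1 w ↔ R q.2 w)).card : ℝ) + rdist R W q.1 q.2 =
          W.card := by
        unfold rdist
        exact_mod_cast h4
      have h6 : (1 - δ) * W.card ≤ r * W.card :=
        mul_le_mul_of_nonneg_right (le_max_left _ _) hWpos.le
      nlinarith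
    have h3 : ((W.card : ℝ)) ^ n ≤ (K : ℝ) ^ 2 * (r * W.card) ^ n := by
      calc ((W.card : ℝ)) ^ n ≤ ((∑ q ∈ P'.offDiag, (Fintype.piFinset fun _ : Fin n =>
            W.filter fun w => (R q.1 w ↔ R q.2 w)).card : ℕ) : ℝ) := by exact_mod_cast h1
        _ = ∑ q ∈ P'.offDiag, ((Fintype.piFinset fun _ : Fin n =>
            W.filter fun w => (R q.1 w ↔ R q.2 w)).card : ℝ) := by push_cast; rfl
        _ ≤ ∑ _q ∈ P'.offDiag, (r * W.card) ^ n := sum_le_sum h2
        _ = (P'.offDiag.card : ℝ) * (r * W.card) ^ n := by rw [sum_const, nsmul_eq_mul]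
        _ ≤ (K : ℝ) ^ 2 * (r * W.card) ^ n := by
            refine mul_le_mul_of_nonneg_right ?_ (by positivity)
            rw [offDiag_card, hP'c]
            have : K * K - K ≤ K ^ 2 := by rw [sq]; exact Nat.sub_le _ _
            exact_mod_cast this
    rw [mul_pow, ← mul_assoc] at h3
    have h4 : (0 : ℝ) < (W.card : ℝ) ^ n := by positivity
    have h5 : (K : ℝ) ^ 2 * r ^ n * (W.card : ℝ) ^ n < 1 * (W.card : ℝ) ^ n :=
      mul_lt_mul_of_pos_right hn h4
    linarith
  -- the traces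
  set T : α → Finset (Fin n) := fun x => univ.filter fun i => R x (t i) with hT
  have hTinj : Set.InjOn T (P' : Set α) := by
    intro x hx y hy hxy
    by_contra hne
    obtain ⟨i, hi⟩ := ht x hx y hy hne
    apply hi
    have h1 : i ∈ T x ↔ i ∈ T y := by rw [hxy]
    simpa [hT] using h1
  set 𝒜 := P'.image T with h𝒜
  have h𝒜c : 𝒜.card = K := by rw [h𝒜, card_image_of_injOn hTinj, hP'c]
  have hvc : d ≤ 𝒜.vcDim := by
    by_contra hlt
    push Not at hlt
    have h1 := (card_le_card_shatterer 𝒜).trans card_shatterer_le_sum_vcDim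
    have h2 : ∑ k ∈ Iic 𝒜.vcDim, (Fintype.card (Fin n)).choose k ≤ d * n ^ d := by
      calc ∑ k ∈ Iic 𝒜.vcDim, (Fintype.card (Fin n)).choose k
          ≤ ∑ k ∈ Iic 𝒜.vcDim, n ^ d := by
            refine sum_le_sum fun k hk => ?_
            rw [mem_Iic] at hk
            rw [Fintype.card_fin]
            exact (Nat.choose_le_pow n k).trans (Nat.pow_le_pow_right hn1 (by omega))
        _ = (𝒜.vcDim + 1) * n ^ d := by rw [sum_const, smul_eq_mul, Nat.card_Iic]
        _ ≤ d * n ^ d := Nat.mul_le_mul_right _ hlt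
    have h3 : 0 < n ^ d := Nat.pow_pos hn1
    have h4 : K = d * n ^ d + n ^ d := by rw [hK, add_mul, one_mul]
    omega
  have hne : 𝒜.shatterer.Nonempty := by
    rw [nonempty_iff_ne_empty]
    intro h
    have h1 := card_le_card_shatterer 𝒜
    rw [h, card_empty, h𝒜c] at h1
    have h3 : 0 < n ^ d := Nat.pow_pos hn1
    have h4 : K = d * n ^ d + n ^ d := by rw [hK, add_mul, one_mul]
    omega
  obtain ⟨J, hJ, hJc⟩ := exists_mem_eq_sup 𝒜.shatterer hne card
  rw [mem_shatterer] at hJ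
  have hJd : d ≤ J.card := by
    rw [← hJc]
    exact hvc
  have hinj : Set.InjOn t (J : Set (Fin n)) := by
    intro i hi j hj hij
    obtain ⟨u, hu, hJu⟩ := hJ (show {i} ⊆ J from singleton_subset_iff.2 hi)
    obtain ⟨x, hx, rfl⟩ := mem_image.1 hu
    have h1 : i ∈ J ∩ T x := by rw [hJu]; exact mem_singleton_self i
    have h2 : R x (t i) := (mem_filter.1 (mem_inter.1 h1).2).2
    have h3 : j ∈ J ∩ T x := by
      refine mem_inter.2 ⟨hj, mem_filter.2 ⟨mem_univ _, ?_⟩⟩
      rw [← hij]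
      exact h2
    rw [hJu] at h3
    exact (mem_singleton.1 h3).symm
  refine ⟨J.image t, ?_, ?_, ?_⟩
  · intro w hw
    obtain ⟨i, -, rfl⟩ := mem_image.1 hw
    exact htW i
  · rw [card_image_of_injOn hinj]
    exact hJd
  · intro S _
    obtain ⟨u, hu, hJu⟩ := hJ (show J.filter (fun i => t i ∈ S) ⊆ J from filter_subset _ _)
    obtain ⟨x, hx, rfl⟩ := mem_image.1 hu
    refine ⟨x, hP' hx, ?_⟩
    intro w hw
    obtain ⟨i, hi, rfl⟩ := mem_image.1 hw
    have h1 : i ∈ J ∩ T x ↔ i ∈ J.filter (fun i => t i ∈ S) := by rw [hJu]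
    have h2 : i ∈ T x ↔ R x (t i) := by simp [hT]
    rw [← h2]
    constructor
    · intro h
      exact (mem_filter.1 (h1.1 (mem_inter.2 ⟨hi, h⟩))).2
    · intro h
      exact (mem_inter.1 (h1.2 (mem_filter.2 ⟨hi, h⟩))).2

end Pool.Agent.Helper68.Piv
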