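import Pool.Agent.Helper68.Piv.Hom
import Pool.Agent.Helper55.RD.Comb

/-!
# Homogeneous sets and pairs in graphs of bounded VC dimension
-/

set_option autoImplicit false

open Finset Pool.Agent.Helper55.RD
open scoped Classical

namespace Pool.Agent.Helper68.Piv

section Basic

variable {α β : Type*} (R : α → β → Prop)

theorem ShR.compl {R : α → β → Prop} {U : Finset α} {W : Finset β} {d : ℕ}
    (h : ShR (fun u w => ¬ R u w) U W d) : ShR R U W d := by
  obtain ⟨X, hX, hd, hS⟩ := h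
  refine ⟨X, hX, hd, fun S hSX => ?_⟩
  obtain ⟨u, hu, h⟩ := hS (X \ S) sdiff_subset
  refine ⟨u, hu, fun x hx => ?_⟩
  have h1 := h x hx
  rw [mem_sdiff] at h1
  tauto

theorem eR_compl (A : Finset α) (B : Finset β) : eR (fun u w => ¬ R u w) A B = nR R A B := by
  unfold eR nR ind
  refine sum_congr rfl fun u _ => sum_congr rfl fun w _ => ?_
  by_cases h : R u w <;> simp [h]

theorem nR_compl (A : Finset α) (B : Finset β) : nR (fun u w => ¬ R u w) A B = eR R A B := by
  unfold eR nR ind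
  refine sum_congr rfl fun u _ => sum_congr rfl fun w _ => ?_
  by_cases h : R u w <;> simp [h]

theorem eR_mono {A A' : Finset α} {B B' : Finset β} (hA : A' ⊆ A) (hB : B' ⊆ B) :
    eR R A' B' ≤ eR R A B := by
  unfold eR
  calc ∑ u ∈ A', ∑ w ∈ B', ind R u w ≤ ∑ u ∈ A', ∑ w ∈ B, ind R u w :=
        sum_le_sum fun u _ => sum_le_sum_of_subset_of_nonneg hB fun w _ _ => ind_nonneg R u w
    _ ≤ _ := sum_le_sum_of_subset_of_nonneg hA fun u _ _ => sum_nonneg fun w _ => ind_nonneg R u w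

theorem nR_mono {A A' : Finset α} {B B' : Finset β} (hA : A' ⊆ A) (hB : B' ⊆ B) :
    nR R A' B' ≤ nR R A B := by
  rw [← eR_compl, ← eR_compl]
  exact eR_mono _ hA hB

theorem eR_swap (A : Finset α) (B : Finset β) : eR (fun w u => R u w) B A = eR R A B := by
  unfold eR
  rw [sum_comm]
  rfl

theorem nR_swap (A : Finset α) (B : Finset β) : nR (fun w u => R u w) B A = nR R A B := by
  unfold nR
  rw [sum_comm]
  rfl

/-- the `q` elements with the smallest values have at most the average -/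
theorem exists_small (A : Finset α) (f : α → ℝ) (q : ℕ) (hq : q ≤ A.card) :
    ∃ A0 ⊆ A, A0.card = q ∧ A.card * ∑ a ∈ A0, f a ≤ q * ∑ a ∈ A, f a := by
  obtain ⟨A0, hA0, hmin⟩ := exists_min_image (A.powersetCard q) (fun A0 => ∑ a ∈ A0, f a)
    (powersetCard_nonempty.2 hq)
  rw [mem_powersetCard] at hA0
  refine ⟨A0, hA0.1, hA0.2, ?_⟩
  have hle : ∀ a ∈ A0, ∀ b ∈ A \ A0, f a ≤ f b := by
    intro a ha b hb
    rw [mem_sdiff] at hb
    have hba : b ∉ A0.erase a := fun h => hb.2 (mem_of_mem_erase h)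
    have h1 := hmin (insert b (A0.erase a)) (by
      rw [mem_powersetCard]
      refine ⟨insert_subset hb.1 ((erase_subset _ _).trans hA0.1), ?_⟩
      rw [card_insert_of_notMem hba, card_erase_of_mem ha, hA0.2]
      have : 0 < A0.card := card_pos.2 ⟨a, ha⟩
      omega)
    rw [sum_insert hba] at h1
    have h2 := add_sum_erase A0 f ha
    linarith
  have h1 : ∑ a ∈ A0, ∑ b ∈ A \ A0, f a ≤ ∑ a ∈ A0, ∑ b ∈ A \ A0, f b :=
    sum_le_sum fun a ha => sum_le_sum fun b hb => hle a ha b hb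
  simp only [sum_const, nsmul_eq_mul] at h1
  rw [← mul_sum] at h1
  have h2 := sum_sdiff (f := f) hA0.1
  have h3 : ((A \ A0).card : ℝ) = A.card - q := by
    rw [card_sdiff_of_subset hA0.1, hA0.2, Nat.cast_sub hq]
  rw [h3, hA0.2] at h1
  rw [← h2]
  linarith

theorem exists_shrink_left (A : Finset α) (B : Finset β) (δ : ℝ) (q : ℕ) (hq : q ≤ A.card)
    (hA : A.Nonempty) (h : nR R A B ≤ δ * (A.card * B.card)) :
    ∃ A0 ⊆ A, A0.card = q ∧ nR R A0 B ≤ δ * (q * B.card) := by
  obtain ⟨A0, hA0, hc, hle⟩ := exists_small A (fun u => ∑ w ∈ B, (1 - ind R u w)) q hq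
  refine ⟨A0, hA0, hc, ?_⟩
  have hApos : (0 : ℝ) < A.card := by exact_mod_cast hA.card_pos
  have h1 : (A.card : ℝ) * nR R A0 B ≤ q * nR R A B := hle
  have h2 : (q : ℝ) * nR R A B ≤ q * (δ * (A.card * B.card)) :=
    mul_le_mul_of_nonneg_left h (by positivity)
  have h3 : (A.card : ℝ) * nR R A0 B ≤ A.card * (δ * (q * B.card)) := by
    calc _ ≤ _ := h1.trans h2
      _ = _ := by ring
  exact le_of_mul_le_mul_left h3 hApos

theorem exists_shrink_pair (A : Finset α) (B : Finset β) (δ : ℝ) (q r : ℕ) (hq : q ≤ A.card)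
    (hr : r ≤ B.card) (hA : A.Nonempty) (hB : B.Nonempty)
    (h : nR R A B ≤ δ * (A.card * B.card)) :
    ∃ A0 ⊆ A, ∃ B0 ⊆ B, A0.card = q ∧ B0.card = r ∧ nR R A0 B0 ≤ δ * (q * r) := by
  obtain ⟨A0, hA0, hc, h1⟩ := exists_shrink_left R A B δ q hq hA h
  rw [← nR_swap] at h1
  obtain ⟨B0, hB0, hc', h2⟩ := exists_shrink_left (fun w u => R u w) B A0 δ r hr hB (by
    rw [hc]
    linarith)
  rw [nR_swap, hc] at h2
  exact ⟨A0, hA0, B0, hB0, hc, hc', by linarith⟩

/-- homogeneous pair -/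
def Hom (δ : ℝ) (A : Finset α) (B : Finset β) : Prop :=
  nR R A B ≤ δ * (A.card * B.card) ∨ eR R A B ≤ δ * (A.card * B.card)

end Basic

/-- **Homogeneous pair.** -/
theorem exists_hom_pair0 (d : ℕ) (δ : ℝ) (hδ : 0 < δ) :
    ∃ c : ℝ, 0 < c ∧ c ≤ 1 ∧ ∀ (α β : Type) (R : α → β → Prop) (U : Finset α) (W : Finset β)
      (s : ℕ), 1 ≤ s → U.card = s → W.card = s → ¬ ShR R U W d → ¬ ShR (fun w u => R u w) W U d →
      ∀ s' : ℕ, (s' : ℝ) ≤ c * s →
      ∃ A ⊆ U, ∃ B ⊆ W, A.card = s' ∧ B.card = s' ∧ Hom R δ A B := by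
  obtain ⟨c, hc0, hc1, hc⟩ := exists_dense_pair d (1 / 2) δ (by norm_num) hδ
  refine ⟨c, hc0, hc1, fun α β R U W s hs hU hW hsh hsh' s' hs' => ?_⟩
  have hUne : U.Nonempty := card_pos.1 (by omega)
  have hWne : W.Nonempty := card_pos.1 (by omega)
  have htot := eR_add_nR R U W
  have key : ∀ (Q : α → β → Prop), ¬ ShR Q U W d → ¬ ShR (fun w u => Q u w) W U d →
      1 / 2 * ((U.card : ℝ) * W.card) ≤ eR Q U W →
      ∃ A ⊆ U, ∃ B ⊆ W, A.card = s' ∧ B.card = s' ∧ nR Q A B ≤ δ * (A.card * B.card) := by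
    intro Q hQ hQ' he
    obtain ⟨A, hA, B, hB, hAc, hBc, hn⟩ := hc α β Q U W hUne hWne hQ hQ' he
    rw [hU] at hAc
    rw [hW] at hBc
    have hspos : (0 : ℝ) < c * s := by positivity
    have hAne : A.Nonempty := by
      rw [← card_pos]
      have : (0 : ℝ) < A.card := hspos.trans_le hAc
      exact_mod_cast this
    have hBne : B.Nonempty := by
      rw [← card_pos]
      have : (0 : ℝ) < B.card := hspos.trans_le hBc
      exact_mod_cast this
    obtain ⟨A0, hA0, B0, hB0, h1, h2, h3⟩ := exists_shrink_pair Q A B δ s' s'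
      (by exact_mod_cast hs'.trans hAc) (by exact_mod_cast hs'.trans hBc) hAne hBne hn
    exact ⟨A0, hA0.trans hA, B0, hB0.trans hB, h1, h2, by rw [h1, h2]; exact h3⟩
  by_cases he : 1 / 2 * ((U.card : ℝ) * W.card) ≤ eR R U W
  · obtain ⟨A, hA, B, hB, h1, h2, h3⟩ := key R hsh hsh' he
    exact ⟨A, hA, B, hB, h1, h2, Or.inl h3⟩
  · push Not at he
    obtain ⟨A, hA, B, hB, h1, h2, h3⟩ := key (fun u w => ¬ R u w) (fun h => hsh h.compl)
      (fun h => hsh' h.compl) (by rw [eR_compl]; linarith)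
    rw [nR_compl] at h3
    exact ⟨A, hA, B, hB, h1, h2, Or.inr h3⟩

/-- **Many homogeneous pairs.** -/
theorem exists_hom_family (d k : ℕ) (L : Finset (Fin k × Fin k)) :
    (∀ p ∈ L, p.1 ≠ p.2) → ∀ δ : ℝ, 0 < δ →
    ∃ c : ℝ, 0 < c ∧ c ≤ 1 ∧ ∀ (α : Type) (R : α → α → Prop),
      (∀ U W : Finset α, ¬ ShR R U W d) → (∀ U W : Finset α, ¬ ShR (fun w u => R u w) U W d) →
      ∀ (A : Fin k → Finset α) (s : ℕ), 1 ≤ s → (∀ i, (A i).card = s) →
      ∃ (A' : Fin k → Finset α) (s' : ℕ), 1 ≤ s' ∧ c * s ≤ s' ∧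
        (∀ i, A' i ⊆ A i ∧ (A' i).card = s') ∧ ∀ p ∈ L, Hom R δ (A' p.1) (A' p.2) := by
  induction L using Finset.induction_on with
  | empty =>
    intro _ δ _
    refine ⟨1, one_pos, le_rfl, fun α R _ _ A s hs hA => ⟨A, s, hs, by simp, fun i =>
      ⟨Subset.refl _, hA i⟩, by simp⟩⟩
  | insert p L hp ih =>
    intro hL δ hδ
    obtain ⟨c1, hc10, hc11, hc1⟩ := exists_hom_pair0 d δ hδ
    obtain ⟨c2, hc20, hc21, hc2⟩ := ih (fun q hq => hL q (mem_insert_of_mem hq))
      (δ * (c1 / 2) ^ 2) (by positivity)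
    refine ⟨c1 / 2 * c2, by positivity, by nlinarith, fun α R hR hR' A s hs hA => ?_⟩
    obtain ⟨A', s', hs', hcs', hA', hhom⟩ := hc2 α R hR hR' A s hs hA
    have hs'pos : (0 : ℝ) < s' := by exact_mod_cast hs'
    rcases lt_or_ge (c1 * s') 1 with hsmall | hlarge
    · -- singletons
      have hne : ∀ i, (A' i).Nonempty := fun i => card_pos.1 (by rw [(hA' i).2]; omega)
      choose a ha using hne
      refine ⟨fun i => {a i}, 1, le_rfl, ?_, fun i => ⟨?_, card_singleton _⟩, ?_⟩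
      · have h1 : c1 / 2 * (c2 * s) ≤ c1 / 2 * s' := mul_le_mul_of_nonneg_left hcs' (by positivity)
        push_cast
        nlinarith
      · exact singleton_subset_iff.2 ((hA' i).1 (ha i))
      · intro q _
        unfold Hom eR nR
        simp only [sum_singleton, card_singleton]
        rcases ind_cases R (a q.1) (a q.2) with h | h
        · right; rw [h]; positivity
        · left; rw [h]; simp; positivity
    · obtain ⟨s'', hs''1, hs''2, hs''3⟩ : ∃ s'' : ℕ, 1 ≤ s'' ∧ (s'' : ℝ) ≤ c1 * s' ∧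
          c1 / 2 * s' ≤ s'' := by
        refine ⟨⌊c1 * s'⌋₊, Nat.one_le_floor_iff _ |>.2 hlarge, Nat.floor_le (by positivity), ?_⟩
        have h1 := Nat.lt_floor_add_one (c1 * s')
        have h2 : (1 : ℝ) ≤ ⌊c1 * (s' : ℝ)⌋₊ := by
          exact_mod_cast Nat.one_le_floor_iff _ |>.2 hlarge
        linarith
      have hs''s' : s'' ≤ s' := by
        have : (s'' : ℝ) ≤ s' := hs''2.trans (by nlinarith)
        exact_mod_cast this
      obtain ⟨B1, hB1, B2, hB2, hc1', hc2', hB⟩ := hc1 α α R (A' p.1) (A' p.2) s' hs' (hA' p.1).2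
        (hA' p.2).2 (hR _ _) (hR' _ _) s'' hs''2
      have hsub : ∀ i, ∃ C ⊆ A' i, C.card = s'' := fun i =>
        exists_subset_card_eq (by rw [(hA' i).2]; exact hs''s')
      choose C hC hCc using hsub
      have hpne : p.1 ≠ p.2 := hL p (mem_insert_self _ _)
      let A'' : Fin k → Finset α := fun i => if i = p.1 then B1 else if i = p.2 then B2 else C i
      have hA''1 : ∀ i, A'' i ⊆ A' i := by
        intro i
        simp only [A'']
        split_ifs with h1 h2
        · rw [h1]; exact hB1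
        · rw [h2]; exact hB2
        · exact hC i
      have hA''2 : ∀ i, (A'' i).card = s'' := by
        intro i
        simp only [A'']
        split_ifs with h1 h2
        · exact hc1'
        · exact hc2'
        · exact hCc i
      refine ⟨A'', s'', hs''1, ?_, fun i => ⟨(hA''1 i).trans (hA' i).1, hA''2 i⟩, ?_⟩
      · have h1 : c1 / 2 * (c2 * s) ≤ c1 / 2 * s' := mul_le_mul_of_nonneg_left hcs' (by positivity)
        linarith
      · intro q hq
        rcases mem_insert.1 hq with hq | hq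
        · rw [hq]
          have e1 : A'' p.1 = B1 := if_pos rfl
          have e2 : A'' p.2 = B2 := by
            simp [A'', hpne.symm]
          rw [e1, e2]
          exact hB
        · have h1 := hhom q hq
          have hbd : δ * (c1 / 2) ^ 2 * (((A' q.1).card : ℝ) * (A' q.2).card) ≤
              δ * ((A'' q.1).card * (A'' q.2).card) := by
            rw [(hA' q.1).2, (hA' q.2).2, hA''2, hA''2]
            have h2 : (c1 / 2 * s') * (c1 / 2 * s') ≤ (s'' : ℝ) * s'' :=
              mul_le_mul hs''3 hs''3 (by positivity) (by positivity)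
            calc _ = δ * ((c1 / 2 * s') * (c1 / 2 * s')) := by ring
              _ ≤ _ := mul_le_mul_of_nonneg_left h2 hδ.le
          rcases h1 with h1 | h1
          · exact Or.inl ((nR_mono R (hA''1 _) (hA''1 _)).trans (h1.trans hbd))
          · exact Or.inr ((eR_mono R (hA''1 _) (hA''1 _)).trans (h1.trans hbd))

end Pool.Agent.Helper68.Piv
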