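import Pool.Agent.Helper68.Piv.Reg

/-!
# Two homogeneous sets, and the homogeneous pair
-/

set_option autoImplicit false

open Finset Pool.Agent.Helper55.RD
open scoped Classical

namespace Pool.Agent.Helper68.Piv

theorem exists_disjoint_family {α : Type*} (s : ℕ) : ∀ (k : ℕ) (A : Finset α), k * s ≤ A.card →
    ∃ F : Fin k → Finset α, (∀ i, F i ⊆ A ∧ (F i).card = s) ∧
      ∀ i j, i ≠ j → Disjoint (F i) (F j) := by
  intro k
  induction k with
  | zero =>
    intro A _
    exact ⟨fun i => i.elim0, fun i => i.elim0, fun i => i.elim0⟩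
  | succ k ih =>
    intro A hA
    have h1 : s ≤ A.card := by
      have : (k + 1) * s = k * s + s := by ring
      omega
    obtain ⟨B, hB, hBc⟩ := exists_subset_card_eq h1
    obtain ⟨F, hF, hFd⟩ := ih (A \ B) (by
      rw [card_sdiff_of_subset hB, hBc]
      have : (k + 1) * s = k * s + s := by ring
      omega)
    refine ⟨Fin.cons B F, ?_, ?_⟩
    · intro i
      refine Fin.cases ?_ (fun i => ?_) i
      · exact ⟨hB, hBc⟩
      · exact ⟨(hF i).1.trans sdiff_subset, (hF i).2⟩
    · have hBF : ∀ i, Disjoint B (F i) := fun i => by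
        rw [disjoint_left]
        intro x hx hx'
        exact (mem_sdiff.1 ((hF i).1 hx')).2 hx
      intro i j
      refine Fin.cases ?_ (fun i => ?_) i
      · refine Fin.cases ?_ (fun j => ?_) j
        · intro h; exact absurd rfl h
        · intro _; exact hBF j
      · refine Fin.cases ?_ (fun j => ?_) j
        · intro _; exact (hBF i).symm
        · intro h
          exact hFd i j fun h' => h (by rw [h'])

section Union

variable {α : Type} (R : α → α → Prop)

theorem eR_biUnion {ι : Type*} (I : Finset ι) (F : ι → Finset α)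
    (hF : ∀ i ∈ I, ∀ j ∈ I, i ≠ j → Disjoint (F i) (F j)) :
    eR R (I.biUnion F) (I.biUnion F) = ∑ i ∈ I, ∑ j ∈ I, eR R (F i) (F j) := by
  have hpd : (I : Set ι).PairwiseDisjoint F := fun i hi j hj hij => hF i hi j hj hij
  have h1 : ∀ u, ∑ w ∈ I.biUnion F, ind R u w = ∑ j ∈ I, ∑ w ∈ F j, ind R u w :=
    fun u => sum_biUnion hpd
  unfold eR
  simp only [h1]
  rw [sum_biUnion hpd]
  refine sum_congr rfl fun i _ => ?_
  rw [sum_comm]

/-- the union of pairwise sparse sets of the same size is sparse -/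
theorem eR_union_le {ι : Type*} (I : Finset ι) (F : ι → Finset α) (s : ℕ) (δ : ℝ) (hδ : 0 ≤ δ)
    (hF : ∀ i ∈ I, ∀ j ∈ I, i ≠ j → Disjoint (F i) (F j)) (hc : ∀ i ∈ I, (F i).card = s)
    (h : ∀ i ∈ I, ∀ j ∈ I, i ≠ j → eR R (F i) (F j) ≤ δ * (s * s)) (hI : 0 < I.card) :
    (I.biUnion F).card = I.card * s ∧
    eR R (I.biUnion F) (I.biUnion F) ≤
      (δ + 1 / I.card) * ((I.biUnion F).card * (I.biUnion F).card) := by
  have hcard : (I.biUnion F).card = I.card * s := by
    rw [card_biUnion (fun i hi j hj hij => hF i hi j hj hij), sum_congr rfl hc, sum_const,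
      smul_eq_mul]
  refine ⟨hcard, ?_⟩
  rw [eR_biUnion R I F hF]
  have hIpos : (0 : ℝ) < I.card := by exact_mod_cast hI
  have h1 : ∀ i ∈ I, ∑ j ∈ I, eR R (F i) (F j) ≤ I.card * (δ * (s * s)) + s * s := by
    intro i hi
    rw [← add_sum_erase I _ hi, add_comm]
    refine add_le_add ?_ ?_
    · calc ∑ j ∈ I.erase i, eR R (F i) (F j) ≤ ∑ j ∈ I.erase i, δ * ((s : ℝ) * s) :=
            sum_le_sum fun j hj => h i hi j (mem_of_mem_erase hj) (ne_of_mem_erase hj).symm
        _ = (I.erase i).card * (δ * (s * s)) := by rw [sum_const, nsmul_eq_mul]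
        _ ≤ I.card * (δ * (s * s)) := by
            refine mul_le_mul_of_nonneg_right ?_ (by positivity)
            exact_mod_cast card_le_card (erase_subset _ _)
    · have := eR_le R (F i) (F i)
      rwa [hc i hi] at this
  calc ∑ i ∈ I, ∑ j ∈ I, eR R (F i) (F j) ≤ ∑ _i ∈ I, (I.card * (δ * (s * s)) + s * s) :=
        sum_le_sum h1
    _ = I.card * (I.card * (δ * (s * s)) + s * s) := by rw [sum_const, nsmul_eq_mul]
    _ = (δ + 1 / I.card) * ((I.biUnion F).card * (I.biUnion F).card) := by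
        rw [hcard]
        push_cast
        field_simp

end Union

/-- homogeneous set -/
def HomSet {V : Type*} (G : SimpleGraph V) (δ : ℝ) (A : Finset V) : Prop :=
  eR G.Adj A A ≤ δ * (A.card * A.card) ∨ nR G.Adj A A ≤ δ * (A.card * A.card)

/-- no shattered set of size `d` in the neighbourhood system -/
def Sh {V : Type*} (G : SimpleGraph V) (d : ℕ) : Prop :=
  ∃ X : Finset V, d ≤ X.card ∧ ∀ S ⊆ X, ∃ y, ∀ x ∈ X, (G.Adj y x ↔ x ∈ S)

theorem Sh.of_ShR {V : Type*} {G : SimpleGraph V} {U W : Finset V} {d : ℕ}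
    (h : ShR G.Adj U W d) : Sh G d := by
  obtain ⟨X, _, hd, hS⟩ := h
  exact ⟨X, hd, fun S hSX => by
    obtain ⟨u, _, h⟩ := hS S hSX
    exact ⟨u, h⟩⟩

theorem Sh.of_ShR' {V : Type*} {G : SimpleGraph V} {U W : Finset V} {d : ℕ}
    (h : ShR (fun w u => G.Adj u w) U W d) : Sh G d := by
  obtain ⟨X, _, hd, hS⟩ := h
  exact ⟨X, hd, fun S hSX => by
    obtain ⟨u, _, h⟩ := hS S hSX
    exact ⟨u, fun x hx => by rw [G.adj_comm]; exact h x hx⟩⟩

/-- Ramsey: from pairwise homogeneous sets of equal size to one homogeneous set. -/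
theorem exists_homSet_of_family {V : Type} (G : SimpleGraph V) (δ : ℝ) (hδ : 0 ≤ δ) (t : ℕ)
    (ht : 0 < t) (A : Fin (ram t t) → Finset V) (s : ℕ) (hc : ∀ i, (A i).card = s)
    (hd : ∀ i j, i ≠ j → Disjoint (A i) (A j))
    (h : ∀ i j, i ≠ j → Hom G.Adj δ (A i) (A j)) :
    ∃ I : Finset (Fin (ram t t)), (I.biUnion A).card = t * s ∧
      HomSet G (δ + 1 / t) (I.biUnion A) := by
  have hsymm : ∀ X Y : Finset V, eR G.Adj X Y = eR G.Adj Y X := by
    intro X Y
    rw [← eR_swap]
    unfold eR ind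
    simp only [G.adj_comm]
  rcases ramsey (fun i j => eR G.Adj (A i) (A j) ≤ δ * (s * s))
    (fun i j h => by rw [hsymm]; exact h) t t (univ : Finset (Fin (ram t t))) (by simp) with
    ⟨I, _, hIc, hI⟩ | ⟨I, _, hIc, hI⟩
  · obtain ⟨h1, h2⟩ := eR_union_le G.Adj I A s δ hδ (fun i _ j _ hij => hd i j hij)
      (fun i _ => hc i) (fun i hi j hj hij => hI i hi j hj hij) (by omega)
    rw [hIc] at h1 h2
    exact ⟨I, h1, Or.inl h2⟩
  · obtain ⟨h1, h2⟩ := eR_union_le (fun u w => ¬ G.Adj u w) I A s δ hδ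
      (fun i _ j _ hij => hd i j hij) (fun i _ => hc i) (fun i hi j hj hij => by
        rw [eR_compl]
        have h3 := h i j hij
        unfold Hom at h3
        rw [hc i, hc j] at h3
        rcases h3 with h3 | h3
        · exact h3
        · exact absurd h3 (hI i hi j hj hij)) (by omega)
    rw [hIc] at h1 h2
    rw [eR_compl] at h2
    exact ⟨I, h1, Or.inr h2⟩

/-- **Two homogeneous sets of the same size.** -/
theorem exists_homSets (d : ℕ) (δ : ℝ) (hδ : 0 < δ) : ∃ c : ℝ, 0 < c ∧ c ≤ 1 ∧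
    ∀ (V : Type) (G : SimpleGraph V), ¬ Sh G d → ∀ (A B : Finset V) (s : ℕ), 1 ≤ c * s →
      A.card = s → B.card = s → ∃ A1 ⊆ A, ∃ B1 ⊆ B, A1.card = B1.card ∧ c * s ≤ A1.card ∧
        HomSet G δ A1 ∧ HomSet G δ B1 := by
  obtain ⟨t, ht⟩ := exists_nat_gt (2 / δ)
  have ht0 : 0 < t := by
    rcases Nat.eq_zero_or_pos t with h | h
    · rw [h] at ht
      have : 0 < 2 / δ := by positivity
      simp at ht
      linarith
    · exact h
  have htpos : (0 : ℝ) < t := by exact_mod_cast ht0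
  set k := ram t t with hk
  set L : Finset (Fin (k + k) × Fin (k + k)) := (univ : Finset (Fin (k + k))).offDiag with hL
  obtain ⟨c, hc0, hc1, hc⟩ := exists_hom_family d (k + k) L (fun p hp => by
    rw [hL, mem_offDiag] at hp
    exact hp.2.2) (δ / 2) (by positivity)
  set c' : ℝ := c * (1 / (2 * (k + 1))) with hc'
  have hc'0 : 0 < c' := by positivity
  have hkc : (1 : ℝ) / (2 * (k + 1)) ≤ 1 / 2 := by
    apply one_div_le_one_div_of_le (by norm_num)
    have : (0 : ℝ) ≤ k := by positivity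
    linarith
  have hc'c : c' ≤ 1 / (2 * (k + 1)) := by
    have : (0 : ℝ) ≤ 1 / (2 * (k + 1)) := by positivity
    nlinarith
  refine ⟨c', hc'0, by linarith, fun V G hG A B s hs hA hB => ?_⟩
  -- the size of the parts
  have hs1 : (1 : ℝ) ≤ 1 / (2 * (k + 1)) * s :=
    hs.trans (mul_le_mul_of_nonneg_right hc'c (by positivity))
  have hs2 : (2 * ((k : ℝ) + 1)) ≤ s := by
    rw [one_div, inv_mul_eq_div, le_div_iff₀ (by positivity)] at hs1
    linarith
  set s0 : ℕ := s / (k + 1) with hs0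
  have hs01 : 1 ≤ s0 := by
    rw [hs0, Nat.le_div_iff_mul_le (by omega)]
    have : 2 * (k + 1) ≤ s := by exact_mod_cast hs2
    omega
  have hs02 : (1 : ℝ) / (2 * (k + 1)) * s ≤ s0 := by
    have h1 : s < (k + 1) * (s0 + 1) := by
      rw [hs0]
      exact Nat.lt_mul_div_succ s (by omega)
    have h2 : (s : ℝ) ≤ (k + 1) * (s0 + 1) := by exact_mod_cast h1.le
    have h3 : (1 : ℝ) ≤ s0 := by exact_mod_cast hs01
    rw [one_div, inv_mul_eq_div, div_le_iff₀ (by positivity)]
    nlinarith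
  have hks : k * s0 ≤ s := by
    have := Nat.div_mul_le_self s (k + 1)
    rw [← hs0] at this
    nlinarith
  obtain ⟨F1, hF1, hF1d⟩ := exists_disjoint_family s0 k A (by rw [hA]; exact hks)
  obtain ⟨F2, hF2, hF2d⟩ := exists_disjoint_family s0 k B (by rw [hB]; exact hks)
  obtain ⟨A', s', hs', hcs', hA', hhom⟩ := hc V G.Adj (fun U W h => hG (Sh.of_ShR h))
    (fun U W h => hG (Sh.of_ShR' h)) (Fin.addCases F1 F2) s0 hs01 (by
      intro i
      refine Fin.addCases (fun i => ?_) (fun i => ?_) i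
      · rw [Fin.addCases_left]; exact (hF1 i).2
      · rw [Fin.addCases_right]; exact (hF2 i).2)
  have hδt : δ / 2 + 1 / t ≤ δ := by
    have : 1 / (t : ℝ) ≤ δ / 2 := by
      rw [div_le_iff₀ htpos]
      rw [div_lt_iff₀ hδ] at ht
      linarith
    linarith
  have mono : ∀ X : Finset V, HomSet G (δ / 2 + 1 / t) X → HomSet G δ X := by
    intro X hX
    rcases hX with h | h
    · exact Or.inl (h.trans (mul_le_mul_of_nonneg_right hδt (by positivity)))
    · exact Or.inr (h.trans (mul_le_mul_of_nonneg_right hδt (by positivity)))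
  have hsubA : ∀ i : Fin k, A' (Fin.castAdd k i) ⊆ F1 i := by
    intro i
    have := (hA' (Fin.castAdd k i)).1
    rwa [Fin.addCases_left] at this
  have hsubB : ∀ i : Fin k, A' (Fin.natAdd k i) ⊆ F2 i := by
    intro i
    have := (hA' (Fin.natAdd k i)).1
    rwa [Fin.addCases_right] at this
  obtain ⟨I, hI1, hI2⟩ := exists_homSet_of_family G (δ / 2) (by positivity) t ht0
    (fun i => A' (Fin.castAdd k i)) s' (fun i => (hA' _).2)
    (fun i j hij => (hF1d i j hij).mono (hsubA i) (hsubA j))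
    (fun i j hij => hhom (Fin.castAdd k i, Fin.castAdd k j) (by
      rw [hL, mem_offDiag]
      exact ⟨mem_univ _, mem_univ _, fun h => hij (Fin.castAdd_injective k k h)⟩))
  obtain ⟨J, hJ1, hJ2⟩ := exists_homSet_of_family G (δ / 2) (by positivity) t ht0
    (fun i => A' (Fin.natAdd k i)) s' (fun i => (hA' _).2)
    (fun i j hij => (hF2d i j hij).mono (hsubB i) (hsubB j))
    (fun i j hij => hhom (Fin.natAdd k i, Fin.natAdd k j) (by
      rw [hL, mem_offDiag]
      exact ⟨mem_univ _, mem_univ _, fun h => hij (Fin.natAdd_injective k k h)⟩))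
  refine ⟨_, ?_, _, ?_, hI1.trans hJ1.symm, ?_, mono _ hI2, mono _ hJ2⟩
  · rw [biUnion_subset]
    intro i _
    exact (hsubA i).trans (hF1 i).1
  · rw [biUnion_subset]
    intro i _
    exact (hsubB i).trans (hF2 i).1
  · rw [hI1]
    push_cast
    have h1 : (1 : ℝ) ≤ t := by exact_mod_cast ht0
    have h2 : c' * s ≤ c * s0 := by
      calc c' * s = c * (1 / (2 * (k + 1)) * s) := by rw [hc']; ring
        _ ≤ c * s0 := mul_le_mul_of_nonneg_left hs02 hc0.le
    have h3 : (0 : ℝ) ≤ s' := by positivity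
    nlinarith

end Pool.Agent.Helper68.Piv
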